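import Mathlib

/-!
# Edge-ordered graphs
-/

set_option autoImplicit false

namespace Pool.Agent.Helper84

/-- An edge-ordered graph: a simple graph together with a linear order on its edge set. -/
structure EdgeOrderedGraph (V : Type*) where
  /-- the underlying simple graph -/
  graph : SimpleGraph V
  /-- the linear order of the edges -/
  ord : LinearOrder graph.edgeSet

/-- `G` contains `P`: an injective homomorphism `φ` of the underlying graphs, i.e. an isomorphism of
`P` with a subgraph of `G`, such that `e < f` in `P` exactly when `φ e < φ f` in `G`. -/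
def EdgeOrderedGraph.Contains {V W : Type*} (G : EdgeOrderedGraph V) (P : EdgeOrderedGraph W) :
    Prop :=
  ∃ φ : P.graph →g G.graph, Function.Injective φ ∧
    ∀ e f : P.graph.edgeSet, P.ord.lt e f ↔ G.ord.lt (φ.mapEdgeSet e) (φ.mapEdgeSet f)

/-- `ex'_<(P, n)`: the largest number of edges of an edge-ordered graph on `n` vertices that does
not contain `P`. -/
noncomputable def exOrd {W : Type*} (P : EdgeOrderedGraph W) (n : ℕ) : ℕ :=
  sSup {m | ∃ G : EdgeOrderedGraph (Fin n), ¬ G.Contains P ∧ G.graph.edgeSet.ncard = m}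

/-- The labels `1, 2, 4, 3` of the consecutive edges `01, 12, 23, 30` of the 4-cycle. -/
def c4Label (e : Sym2 (Fin 4)) : ℕ :=
  if e = s(0, 1) then 1 else if e = s(1, 2) then 2 else if e = s(2, 3) then 4 else 3

lemma c4_cases : ∀ e : Sym2 (Fin 4), e ∈ (SimpleGraph.cycleGraph 4).edgeSet →
    e = s(0, 1) ∨ e = s(1, 2) ∨ e = s(2, 3) ∨ e = s(3, 0) := by
  intro e
  induction e using Sym2.ind with
  | _ i j =>
    intro h
    rw [SimpleGraph.mem_edgeSet] at h
    revert h
    revert i j
    decide

lemma c4Label_injective :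
    Function.Injective (fun e : (SimpleGraph.cycleGraph 4).edgeSet => c4Label e.1) := by
  rintro ⟨e, he⟩ ⟨f, hf⟩ h
  simp only at h
  apply Subtype.ext
  show e = f
  rcases c4_cases e he with rfl | rfl | rfl | rfl <;>
    rcases c4_cases f hf with rfl | rfl | rfl | rfl <;>
    first | rfl | (exfalso; revert h; decide)

/-- The edge-ordered 4-cycle whose labels read `1, 2, 4, 3` around the cycle. -/
def C4_1243 : EdgeOrderedGraph (Fin 4) where
  graph := SimpleGraph.cycleGraph 4
  ord := LinearOrder.lift' (fun e : (SimpleGraph.cycleGraph 4).edgeSet => c4Label e.1)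
    c4Label_injective

lemma C4_lt (e f : C4_1243.graph.edgeSet) :
    C4_1243.ord.lt e f ↔ c4Label e.1 < c4Label f.1 := Iff.rfl

lemma exists_rank_aux {T : Type*} [Finite T] [LinearOrder T] :
    ∃ r : T → ℕ, ∀ e f : T, e < f ↔ r e < r f := by
  classical
  have : Fintype T := Fintype.ofFinite T
  refine ⟨fun s => (Finset.univ.filter (fun x : T => x < s)).card, ?_⟩
  intro e f
  constructor
  · intro h
    apply Finset.card_lt_card
    rw [Finset.ssubset_iff_of_subset]
    · exact ⟨e, by simpa using h, by simp⟩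
    · intro x hx
      simp only [Finset.mem_filter, Finset.mem_univ, true_and] at hx ⊢
      exact lt_trans hx h
  · intro h
    by_contra hcon
    have hle : f ≤ e := not_lt.mp hcon
    have : (Finset.univ.filter (fun x : T => x < f)).card ≤
        (Finset.univ.filter (fun x : T => x < e)).card := by
      apply Finset.card_le_card
      intro x hx
      simp only [Finset.mem_filter, Finset.mem_univ, true_and] at hx ⊢
      exact lt_of_lt_of_le hx hle
    exact absurd h (not_lt.mpr this)

lemma exists_rank {V : Type*} [Finite V] (G : EdgeOrderedGraph V) :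
    ∃ r : Sym2 V → ℕ, ∀ e f : G.graph.edgeSet, G.ord.lt e f ↔ r e.1 < r f.1 := by
  classical
  obtain ⟨r, hr⟩ := @exists_rank_aux G.graph.edgeSet _ G.ord
  refine ⟨fun s => if h : s ∈ G.graph.edgeSet then r ⟨s, h⟩ else 0, ?_⟩
  intro e f
  simp only [e.2, f.2, dif_pos, Subtype.coe_eta]
  exact hr e f

lemma contains_of_cycle {V : Type*} (G : EdgeOrderedGraph V) {r : Sym2 V → ℕ}
    (hr : ∀ e f : G.graph.edgeSet, G.ord.lt e f ↔ r e.1 < r f.1) (v : Fin 4 → V)
    (hv : Function.Injective v) (h01 : G.graph.Adj (v 0) (v 1)) (h12 : G.graph.Adj (v 1) (v 2))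
    (h23 : G.graph.Adj (v 2) (v 3)) (h30 : G.graph.Adj (v 3) (v 0))
    (o1 : r s(v 0, v 1) < r s(v 1, v 2)) (o2 : r s(v 1, v 2) < r s(v 3, v 0))
    (o3 : r s(v 3, v 0) < r s(v 2, v 3)) : G.Contains C4_1243 := by
  have hadj : ∀ i j : Fin 4, (SimpleGraph.cycleGraph 4).Adj i j → G.graph.Adj (v i) (v j) := by
    intro i j hij
    rcases c4_cases s(i, j) hij with h | h | h | h <;> rw [Sym2.eq_iff] at h <;>
      rcases h with ⟨rfl, rfl⟩ | ⟨rfl, rfl⟩ <;>
      first | assumption | (apply SimpleGraph.Adj.symm; assumption)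
  refine ⟨⟨v, fun {i j} h => hadj i j h⟩, hv, ?_⟩
  rintro ⟨e, he⟩ ⟨f, hf⟩
  rw [C4_lt, hr]
  simp only [SimpleGraph.Hom.mapEdgeSet_coe]
  show c4Label e < c4Label f ↔ r (Sym2.map v e) < r (Sym2.map v f)
  have l1 : c4Label s(0, 1) = 1 := by decide
  have l2 : c4Label s(1, 2) = 2 := by decide
  have l3 : c4Label s(2, 3) = 4 := by decide
  have l4 : c4Label s(3, 0) = 3 := by decide
  rcases c4_cases e he with rfl | rfl | rfl | rfl <;>
    rcases c4_cases f hf with rfl | rfl | rfl | rfl <;>
    simp only [l1, l2, l3, l4, Sym2.map_mk] <;> omega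

end Pool.Agent.Helper84
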