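import Mathlib

/-!
# Edge-ordered graphs without the 4-cycle whose extreme edges are opposite: the counting lemma

We work with a finite set `E` of pairs `(a, b)` (the edges of a bipartite graph) carrying natural
number labels.
-/

set_option autoImplicit false

open Finset

namespace Pool.Agent.Helper84.NestedC4

variable {α β : Type*} [DecidableEq α] [DecidableEq β]

/-- No 4-cycle in which the smallest and the largest label are on opposite edges. -/
def NF (lab : α × β → ℕ) (E : Finset (α × β)) : Prop :=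
  ∀ a a' b b', a ≠ a' → b ≠ b' → (a, b) ∈ E → (a, b') ∈ E → (a', b) ∈ E → (a', b') ∈ E →
    ¬ (lab (a, b) < lab (a, b') ∧ lab (a, b) < lab (a', b) ∧ lab (a, b') < lab (a', b') ∧
      lab (a', b) < lab (a', b'))

/-- sign comparison -/
def sg (m n : ℕ) : ℝ := if m < n then 1 else if n < m then -1 else 0

/-- indicator -/
def ind (S : Finset (α × β)) (a : α) (b : β) : ℝ := if (a, b) ∈ S then 1 else 0

/-- corner sign at `b` -/
def sigma (lab : α × β → ℕ) (S : Finset (α × β)) (a a' : α) (b : β) : ℝ :=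
  if (a, b) ∈ S ∧ (a', b) ∈ S then sg (lab (a, b)) (lab (a', b)) else 0

/-- corner sign at `a` -/
def tau (lab : α × β → ℕ) (S : Finset (α × β)) (b b' : β) (a : α) : ℝ :=
  if (a, b) ∈ S ∧ (a, b') ∈ S then sg (lab (a, b)) (lab (a, b')) else 0

/-- the quadruples in which the two low edges are opposite -/
def Xq (L H : Finset (α × β)) (a a' : α) (b b' : β) : ℝ :=
  if ((a, b) ∈ L ∧ (a', b) ∈ H ∧ (a, b') ∈ H ∧ (a', b') ∈ L) ∨
     ((a, b) ∈ H ∧ (a', b) ∈ L ∧ (a, b') ∈ L ∧ (a', b') ∈ H) then 1 else 0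

/-- `L` and `H` split `S` into low and high edges. -/
structure Split (lab : α × β → ℕ) (S L H : Finset (α × β)) : Prop where
  union : ∀ e, e ∈ S ↔ e ∈ L ∨ e ∈ H
  lt : ∀ e ∈ L, ∀ f ∈ H, lab e < lab f

omit [DecidableEq α] [DecidableEq β] in
lemma Split.self (lab : α × β → ℕ) (L : Finset (α × β)) :
    Split lab L L ∅ := ⟨fun e => by simp, fun e _ f hf => by simp at hf⟩

lemma sg_lt {m n : ℕ} (h : m < n) : sg m n = 1 := by simp [sg, h]
lemma sg_gt {m n : ℕ} (h : n < m) : sg m n = -1 := by simp [sg, h, not_lt.mpr h.le]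
lemma sg_core (w1 w2 w3 w4 : ℕ) (d12 : w1 ≠ w2) (d34 : w3 ≠ w4) (d13 : w1 ≠ w3) (d24 : w2 ≠ w4)
    (n1 : ¬ (w1 < w3 ∧ w1 < w2 ∧ w3 < w4 ∧ w2 < w4)) (n2 : ¬ (w2 < w4 ∧ w2 < w1 ∧ w4 < w3 ∧ w1 < w3))
    (n3 : ¬ (w3 < w1 ∧ w3 < w4 ∧ w1 < w2 ∧ w4 < w2)) (n4 : ¬ (w4 < w2 ∧ w4 < w3 ∧ w2 < w1 ∧ w3 < w1)) :
    sg w1 w2 * sg w3 w4 + sg w1 w3 * sg w2 w4 ≤ 0 := by
  unfold sg
  split_ifs <;> first | (exfalso; omega) | norm_num
lemma sg_self (m : ℕ) : sg m m = 0 := by simp [sg]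
lemma sg_sq_le (m n : ℕ) : sg m n * sg m n ≤ 1 := by
  unfold sg; split_ifs <;> norm_num

lemma pointwise (lab : α × β → ℕ) {S L H : Finset (α × β)} (hs : Split lab S L H)
    (hinj : Set.InjOn lab S) (hNF : NF lab S) (a a' : α) (b b' : β) :
    sigma lab S a a' b * sigma lab S a a' b' + tau lab S b b' a * tau lab S b b' a' +
      2 * Xq L H a a' b b' ≤
    (if a = a' then ind S a b * ind S a b' else 0) +
      (if b = b' then ind S a b * ind S a' b else 0) := by
  have hdis : ∀ e, e ∈ L → e ∈ H → False := fun e h1 h2 => lt_irrefl _ (hs.lt e h1 e h2)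
  have hnn : ∀ x y, 0 ≤ ind S x y := fun x y => by unfold ind; split_ifs <;> norm_num
  by_cases ha : a = a'
  · subst ha
    have h1 : sigma lab S a a b = 0 := by unfold sigma; simp [sg_self]
    have h2 : Xq L H a a b b' = 0 := by
      unfold Xq
      rw [if_neg]
      rintro (h | h)
      · exact hdis _ h.1 h.2.1
      · exact hdis _ h.2.1 h.1
    have h3 : tau lab S b b' a * tau lab S b b' a ≤ ind S a b * ind S a b' := by
      unfold tau ind
      by_cases h4 : (a, b) ∈ S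
      · by_cases h5 : (a, b') ∈ S
        · simp only [h4, h5, and_self, if_true]
          simpa using sg_sq_le _ _
        · simp [h5]
      · simp [h4]
    rw [h1, h2]
    have h6 : 0 ≤ (if b = b' then ind S a b * ind S a b else 0) := by
      split_ifs
      · exact mul_nonneg (hnn _ _) (hnn _ _)
      · exact le_refl _
    simp only [if_true]
    linarith
  by_cases hb : b = b'
  · subst hb
    have h1 : tau lab S b b a = 0 := by unfold tau; simp [sg_self]
    have h2 : Xq L H a a' b b = 0 := by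
      unfold Xq
      rw [if_neg]
      rintro (h | h)
      · exact hdis _ h.1 h.2.2.1
      · exact hdis _ h.2.2.1 h.1
    have h3 : sigma lab S a a' b * sigma lab S a a' b ≤ ind S a b * ind S a' b := by
      unfold sigma ind
      by_cases h4 : (a, b) ∈ S
      · by_cases h5 : (a', b) ∈ S
        · simp only [h4, h5, and_self, if_true]
          simpa using sg_sq_le _ _
        · simp [h5]
      · simp [h4]
    rw [h1, h2, if_neg ha]
    simp only [if_true]
    linarith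
  rw [if_neg ha, if_neg hb]
  by_cases hall : (a, b) ∈ S ∧ (a, b') ∈ S ∧ (a', b) ∈ S ∧ (a', b') ∈ S
  · obtain ⟨m1, m3, m2, m4⟩ := hall
    have e1 : sigma lab S a a' b = sg (lab (a, b)) (lab (a', b)) := by
      unfold sigma; rw [if_pos ⟨m1, m2⟩]
    have e2 : sigma lab S a a' b' = sg (lab (a, b')) (lab (a', b')) := by
      unfold sigma; rw [if_pos ⟨m3, m4⟩]
    have e3 : tau lab S b b' a = sg (lab (a, b)) (lab (a, b')) := by
      unfold tau; rw [if_pos ⟨m1, m3⟩]
    have e4 : tau lab S b b' a' = sg (lab (a', b)) (lab (a', b')) := by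
      unfold tau; rw [if_pos ⟨m2, m4⟩]
    have n1 := hNF a a' b b' ha hb m1 m3 m2 m4
    have n2 := hNF a' a b b' (Ne.symm ha) hb m2 m4 m1 m3
    have n3 := hNF a a' b' b ha (Ne.symm hb) m3 m1 m4 m2
    have n4 := hNF a' a b' b (Ne.symm ha) (Ne.symm hb) m4 m2 m3 m1
    have d12 : lab (a, b) ≠ lab (a', b) := fun h => ha (congrArg Prod.fst (hinj m1 m2 h))
    have d34 : lab (a, b') ≠ lab (a', b') := fun h => ha (congrArg Prod.fst (hinj m3 m4 h))
    have d13 : lab (a, b) ≠ lab (a, b') := fun h => hb (congrArg Prod.snd (hinj m1 m3 h))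
    have d24 : lab (a', b) ≠ lab (a', b') := fun h => hb (congrArg Prod.snd (hinj m2 m4 h))
    rw [e1, e2, e3, e4]
    have hX : Xq L H a a' b b' = 0 ∨ (Xq L H a a' b b' = 1 ∧
        ((lab (a, b) < lab (a', b) ∧ lab (a, b) < lab (a, b') ∧ lab (a', b') < lab (a', b) ∧
          lab (a', b') < lab (a, b')) ∨ (lab (a', b) < lab (a, b) ∧ lab (a, b') < lab (a, b) ∧
          lab (a', b) < lab (a', b') ∧ lab (a, b') < lab (a', b')))) := by
      unfold Xq
      split_ifs with h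
      · right
        refine ⟨rfl, ?_⟩
        rcases h with ⟨p1, p2, p3, p4⟩ | ⟨p1, p2, p3, p4⟩
        · left
          exact ⟨hs.lt _ p1 _ p2, hs.lt _ p1 _ p3, hs.lt _ p4 _ p2, hs.lt _ p4 _ p3⟩
        · right
          exact ⟨hs.lt _ p2 _ p1, hs.lt _ p3 _ p1, hs.lt _ p2 _ p4, hs.lt _ p3 _ p4⟩
      · left; rfl
    rcases hX with hX | ⟨hX, ⟨q1, q2, q3, q4⟩ | ⟨q1, q2, q3, q4⟩⟩
    · rw [hX]
      have := sg_core _ _ _ _ d12 d34 d13 d24 n1 n2 n3 n4
      linarith
    · rw [hX, sg_lt q1, sg_gt q4, sg_lt q2, sg_gt q3]; norm_num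
    · rw [hX, sg_gt q1, sg_lt q4, sg_gt q2, sg_lt q3]; norm_num
  · have h1 : sigma lab S a a' b * sigma lab S a a' b' = 0 := by
      unfold sigma
      by_cases h : (a, b) ∈ S ∧ (a', b) ∈ S
      · rw [if_neg (c := (a, b') ∈ S ∧ (a', b') ∈ S)]
        · simp
        · intro h'; exact hall ⟨h.1, h'.1, h.2, h'.2⟩
      · rw [if_neg h]; simp
    have h2 : tau lab S b b' a * tau lab S b b' a' = 0 := by
      unfold tau
      by_cases h : (a, b) ∈ S ∧ (a, b') ∈ S
      · rw [if_neg (c := (a', b) ∈ S ∧ (a', b') ∈ S)]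
        · simp
        · intro h'; exact hall ⟨h.1, h.2, h'.1, h'.2⟩
      · rw [if_neg h]; simp
    have h3 : Xq L H a a' b b' = 0 := by
      unfold Xq
      rw [if_neg]
      have hL : ∀ e, e ∈ L → e ∈ S := fun e h => (hs.union e).mpr (Or.inl h)
      have hH : ∀ e, e ∈ H → e ∈ S := fun e h => (hs.union e).mpr (Or.inr h)
      rintro (⟨p1, p2, p3, p4⟩ | ⟨p1, p2, p3, p4⟩)
      · exact hall ⟨hL _ p1, hH _ p3, hH _ p2, hL _ p4⟩
      · exact hall ⟨hH _ p1, hL _ p3, hL _ p2, hH _ p4⟩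
    rw [h1, h2, h3]; norm_num

/-- signed codegree of a pair of vertices of the first side -/
def TA (lab : α × β → ℕ) (S : Finset (α × β)) (Y : Finset β) (a a' : α) : ℝ :=
  ∑ b ∈ Y, sigma lab S a a' b

/-- signed codegree of a pair of vertices of the second side -/
def TB (lab : α × β → ℕ) (S : Finset (α × β)) (X : Finset α) (b b' : β) : ℝ :=
  ∑ a ∈ X, tau lab S b b' a

/-- sum of the squares of all degrees -/
def Dg (S : Finset (α × β)) (X : Finset α) (Y : Finset β) : ℝ :=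
  ∑ a ∈ X, (∑ b ∈ Y, ind S a b) ^ 2 + ∑ b ∈ Y, (∑ a ∈ X, ind S a b) ^ 2

/-- number of quadruples -/
def XS (L H : Finset (α × β)) (X : Finset α) (Y : Finset β) : ℝ :=
  ∑ a ∈ X, ∑ a' ∈ X, ∑ b ∈ Y, ∑ b' ∈ Y, Xq L H a a' b b'

omit [DecidableEq α] [DecidableEq β] in
lemma quad_comm (X : Finset α) (Y : Finset β) (f : α → α → β → β → ℝ) :
    ∑ b ∈ Y, ∑ b' ∈ Y, ∑ a ∈ X, ∑ a' ∈ X, f a a' b b' =
      ∑ a ∈ X, ∑ a' ∈ X, ∑ b ∈ Y, ∑ b' ∈ Y, f a a' b b' := by
  calc _ = ∑ p ∈ Y ×ˢ Y, ∑ q ∈ X ×ˢ X, f q.1 q.2 p.1 p.2 := by simp [Finset.sum_product]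
    _ = ∑ q ∈ X ×ˢ X, ∑ p ∈ Y ×ˢ Y, f q.1 q.2 p.1 p.2 := Finset.sum_comm
    _ = _ := by simp [Finset.sum_product]

lemma lemma1 (lab : α × β → ℕ) {S L H : Finset (α × β)} (hs : Split lab S L H)
    (hinj : Set.InjOn lab S) (hNF : NF lab S) (X : Finset α) (Y : Finset β) :
    ∑ a ∈ X, ∑ a' ∈ X, (TA lab S Y a a') ^ 2 + ∑ b ∈ Y, ∑ b' ∈ Y, (TB lab S X b b') ^ 2 +
      2 * XS L H X Y ≤ Dg S X Y := by
  have h1 : ∑ a ∈ X, ∑ a' ∈ X, (TA lab S Y a a') ^ 2 =
      ∑ a ∈ X, ∑ a' ∈ X, ∑ b ∈ Y, ∑ b' ∈ Y, sigma lab S a a' b * sigma lab S a a' b' := by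
    refine Finset.sum_congr rfl fun a _ => Finset.sum_congr rfl fun a' _ => ?_
    rw [sq]; unfold TA; rw [Finset.sum_mul_sum]
  have h2 : ∑ b ∈ Y, ∑ b' ∈ Y, (TB lab S X b b') ^ 2 =
      ∑ a ∈ X, ∑ a' ∈ X, ∑ b ∈ Y, ∑ b' ∈ Y, tau lab S b b' a * tau lab S b b' a' := by
    rw [← quad_comm]
    refine Finset.sum_congr rfl fun b _ => Finset.sum_congr rfl fun b' _ => ?_
    rw [sq]; unfold TB; rw [Finset.sum_mul_sum]
  have h3 : Dg S X Y = ∑ a ∈ X, ∑ a' ∈ X, ∑ b ∈ Y, ∑ b' ∈ Y,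
      ((if a = a' then ind S a b * ind S a b' else 0) +
      (if b = b' then ind S a b * ind S a' b else 0)) := by
    unfold Dg
    simp only [Finset.sum_add_distrib]
    congr 1
    · refine Finset.sum_congr rfl fun a ha => ?_
      rw [sq, Finset.sum_mul_sum]
      symm
      calc ∑ a' ∈ X, ∑ b ∈ Y, ∑ b' ∈ Y, (if a = a' then ind S a b * ind S a b' else 0)
          = ∑ a' ∈ X, (if a = a' then ∑ b ∈ Y, ∑ b' ∈ Y, ind S a b * ind S a b' else 0) := by
            refine Finset.sum_congr rfl fun a' _ => ?_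
            split_ifs <;> simp
        _ = _ := by rw [Finset.sum_ite_eq]; simp [ha]
    · rw [← quad_comm]
      refine Finset.sum_congr rfl fun b hb => ?_
      rw [sq, Finset.sum_mul_sum]
      symm
      calc ∑ b' ∈ Y, ∑ a ∈ X, ∑ a' ∈ X, (if b = b' then ind S a b * ind S a' b else 0)
          = ∑ b' ∈ Y, (if b = b' then ∑ a ∈ X, ∑ a' ∈ X, ind S a b * ind S a' b else 0) := by
            refine Finset.sum_congr rfl fun b' _ => ?_
            split_ifs <;> simp
        _ = _ := by rw [Finset.sum_ite_eq]; simp [hb]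
  have h4 : 2 * XS L H X Y = ∑ a ∈ X, ∑ a' ∈ X, ∑ b ∈ Y, ∑ b' ∈ Y, 2 * Xq L H a a' b b' := by
    unfold XS; simp only [Finset.mul_sum]
  rw [h1, h2, h3, h4]
  simp only [← Finset.sum_add_distrib]
  refine Finset.sum_le_sum fun a _ => Finset.sum_le_sum fun a' _ => Finset.sum_le_sum fun b _ =>
    Finset.sum_le_sum fun b' _ => ?_
  exact pointwise lab hs hinj hNF a a' b b'

/-- straddling indicator for a pair of the first side -/
def strA (L H : Finset (α × β)) (a a' : α) (b : β) : ℝ :=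
  ind L a b * ind H a' b + ind H a b * ind L a' b

/-- straddling indicator for a pair of the second side -/
def strB (L H : Finset (α × β)) (b b' : β) (a : α) : ℝ :=
  ind L a b * ind H a b' + ind H a b * ind L a b'

lemma XS_nonneg (L H : Finset (α × β)) (X : Finset α) (Y : Finset β) : 0 ≤ XS L H X Y := by
  unfold XS
  refine Finset.sum_nonneg fun a _ => Finset.sum_nonneg fun a' _ => Finset.sum_nonneg fun b _ =>
    Finset.sum_nonneg fun b' _ => ?_
  unfold Xq; split_ifs <;> norm_num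

lemma sigma_split (lab : α × β → ℕ) {S L H : Finset (α × β)} (hs : Split lab S L H)
    (a a' : α) (b : β) :
    sigma lab S a a' b = sigma lab L a a' b + sigma lab H a a' b +
      (ind L a b * ind H a' b - ind H a b * ind L a' b) := by
  have hdis : ∀ e, e ∈ L → e ∉ H := fun e h1 h2 => lt_irrefl _ (hs.lt e h1 e h2)
  have hdis' : ∀ e, e ∈ H → e ∉ L := fun e h1 h2 => lt_irrefl _ (hs.lt e h2 e h1)
  have u1 := hs.union (a, b)
  have u2 := hs.union (a', b)
  unfold sigma ind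
  by_cases p1 : (a, b) ∈ L
  · have q1 := hdis _ p1
    by_cases p2 : (a', b) ∈ L
    · have q2 := hdis _ p2
      simp [u1, u2, p1, p2, q1, q2]
    · by_cases p3 : (a', b) ∈ H
      · have := sg_lt (hs.lt _ p1 _ p3)
        simp [u1, u2, p1, p2, q1, p3, this]
      · simp [u1, u2, p1, p2, q1, p3]
  · by_cases p4 : (a, b) ∈ H
    · by_cases p2 : (a', b) ∈ L
      · have q2 := hdis _ p2
        have := sg_gt (hs.lt _ p2 _ p4)
        simp [u1, u2, p1, p2, q2, p4, this]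
      · by_cases p3 : (a', b) ∈ H
        · simp [u1, u2, p1, p2, p3, p4]
        · simp [u1, u2, p1, p2, p3, p4]
    · simp [u1, u2, p1, p4]

lemma tau_split (lab : α × β → ℕ) {S L H : Finset (α × β)} (hs : Split lab S L H)
    (b b' : β) (a : α) :
    tau lab S b b' a = tau lab L b b' a + tau lab H b b' a +
      (ind L a b * ind H a b' - ind H a b * ind L a b') := by
  have hdis : ∀ e, e ∈ L → e ∉ H := fun e h1 h2 => lt_irrefl _ (hs.lt e h1 e h2)
  have hdis' : ∀ e, e ∈ H → e ∉ L := fun e h1 h2 => lt_irrefl _ (hs.lt e h2 e h1)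
  have u1 := hs.union (a, b)
  have u2 := hs.union (a, b')
  unfold tau ind
  by_cases p1 : (a, b) ∈ L
  · have q1 := hdis _ p1
    by_cases p2 : (a, b') ∈ L
    · have q2 := hdis _ p2
      simp [u1, u2, p1, p2, q1, q2]
    · by_cases p3 : (a, b') ∈ H
      · have := sg_lt (hs.lt _ p1 _ p3)
        simp [u1, u2, p1, p2, q1, p3, this]
      · simp [u1, u2, p1, p2, q1, p3]
  · by_cases p4 : (a, b) ∈ H
    · by_cases p2 : (a, b') ∈ L
      · have q2 := hdis _ p2
        have := sg_gt (hs.lt _ p2 _ p4)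
        simp [u1, u2, p1, p2, q2, p4, this]
      · by_cases p3 : (a, b') ∈ H
        · simp [u1, u2, p1, p2, p3, p4]
        · simp [u1, u2, p1, p2, p3, p4]
    · simp [u1, u2, p1, p4]

lemma ind_nonneg (S : Finset (α × β)) (a : α) (b : β) : 0 ≤ ind S a b := by
  unfold ind; split_ifs <;> norm_num

lemma ind_split (lab : α × β → ℕ) {S L H : Finset (α × β)} (hs : Split lab S L H)
    (a : α) (b : β) : ind S a b = ind L a b + ind H a b := by
  have hdis : (a, b) ∈ L → (a, b) ∉ H := fun h1 h2 => lt_irrefl _ (hs.lt _ h1 _ h2)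
  have u1 := hs.union (a, b)
  unfold ind
  by_cases p1 : (a, b) ∈ L
  · simp [u1, p1, hdis p1]
  · simp [u1, p1]

lemma Xq_eq (lab : α × β → ℕ) {S L H : Finset (α × β)} (hs : Split lab S L H)
    (a a' : α) (b b' : β) :
    Xq L H a a' b b' = ind L a b * ind H a' b * (ind H a b' * ind L a' b') +
      ind H a b * ind L a' b * (ind L a b' * ind H a' b') := by
  have hdis : (a, b) ∈ L → (a, b) ∉ H := fun h1 h2 => lt_irrefl _ (hs.lt _ h1 _ h2)
  unfold Xq ind
  by_cases p1 : (a, b) ∈ L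
  · have q1 := hdis p1
    by_cases p2 : (a', b) ∈ H <;> by_cases p3 : (a, b') ∈ H <;> by_cases p4 : (a', b') ∈ L <;>
      simp [p1, q1, p2, p3, p4]
  · by_cases p2 : (a, b) ∈ H <;> by_cases p3 : (a', b) ∈ L <;> by_cases p4 : (a, b') ∈ L <;>
      by_cases p5 : (a', b') ∈ H <;> simp [p1, p2, p3, p4, p5]

lemma Dg_split (lab : α × β → ℕ) {S L H : Finset (α × β)} (hs : Split lab S L H)
    (X : Finset α) (Y : Finset β) : Dg L X Y + Dg H X Y ≤ Dg S X Y := by
  unfold Dg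
  have h1 : ∑ a ∈ X, (∑ b ∈ Y, ind L a b) ^ 2 + ∑ a ∈ X, (∑ b ∈ Y, ind H a b) ^ 2 ≤
      ∑ a ∈ X, (∑ b ∈ Y, ind S a b) ^ 2 := by
    rw [← Finset.sum_add_distrib]
    refine Finset.sum_le_sum fun a _ => ?_
    have h : ∑ b ∈ Y, ind S a b = ∑ b ∈ Y, ind L a b + ∑ b ∈ Y, ind H a b := by
      rw [← Finset.sum_add_distrib]
      exact Finset.sum_congr rfl fun b _ => ind_split lab hs a b
    have p : 0 ≤ ∑ b ∈ Y, ind L a b := Finset.sum_nonneg fun b _ => ind_nonneg _ _ _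
    have q : 0 ≤ ∑ b ∈ Y, ind H a b := Finset.sum_nonneg fun b _ => ind_nonneg _ _ _
    rw [h]; nlinarith [mul_nonneg p q]
  have h2 : ∑ b ∈ Y, (∑ a ∈ X, ind L a b) ^ 2 + ∑ b ∈ Y, (∑ a ∈ X, ind H a b) ^ 2 ≤
      ∑ b ∈ Y, (∑ a ∈ X, ind S a b) ^ 2 := by
    rw [← Finset.sum_add_distrib]
    refine Finset.sum_le_sum fun b _ => ?_
    have h : ∑ a ∈ X, ind S a b = ∑ a ∈ X, ind L a b + ∑ a ∈ X, ind H a b := by
      rw [← Finset.sum_add_distrib]
      exact Finset.sum_congr rfl fun a _ => ind_split lab hs a b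
    have p : 0 ≤ ∑ a ∈ X, ind L a b := Finset.sum_nonneg fun a _ => ind_nonneg _ _ _
    have q : 0 ≤ ∑ a ∈ X, ind H a b := Finset.sum_nonneg fun a _ => ind_nonneg _ _ _
    rw [h]; nlinarith [mul_nonneg p q]
  linarith

lemma NF.mono {lab : α × β → ℕ} {S T : Finset (α × β)} (h : NF lab S) (hT : T ⊆ S) :
    NF lab T := fun a a' b b' h1 h2 m1 m2 m3 m4 =>
  h a a' b b' h1 h2 (hT m1) (hT m2) (hT m3) (hT m4)

/-- The sum of the squares of the numbers of straddling cherries. -/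
lemma lemma2 (lab : α × β → ℕ) {S L H : Finset (α × β)} (hs : Split lab S L H)
    (hinj : Set.InjOn lab S) (hNF : NF lab S) (X : Finset α) (Y : Finset β) :
    ∑ a ∈ X, ∑ a' ∈ X, (∑ b ∈ Y, strA L H a a' b) ^ 2 +
      ∑ b ∈ Y, ∑ b' ∈ Y, (∑ a ∈ X, strB L H b b' a) ^ 2 ≤ 6 * Dg S X Y := by
  have hL : L ⊆ S := fun e h => (hs.union e).mpr (Or.inl h)
  have hH : H ⊆ S := fun e h => (hs.union e).mpr (Or.inr h)
  have i1 := lemma1 lab hs hinj hNF X Y
  have i2 := lemma1 lab (Split.self lab L) (hinj.mono (by exact_mod_cast hL)) (hNF.mono hL) X Y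
  have i3 := lemma1 lab (Split.self lab H) (hinj.mono (by exact_mod_cast hH)) (hNF.mono hH) X Y
  have n1 := XS_nonneg L H X Y
  have n2 := XS_nonneg L ∅ X Y
  have n3 := XS_nonneg H ∅ X Y
  have d := Dg_split lab hs X Y
  have eA : ∑ a ∈ X, ∑ a' ∈ X, (∑ b ∈ Y, strA L H a a' b) ^ 2 =
      ∑ a ∈ X, ∑ a' ∈ X, (TA lab S Y a a' - TA lab L Y a a' - TA lab H Y a a') ^ 2 +
        2 * XS L H X Y := by
    unfold XS
    simp only [Finset.mul_sum]
    rw [← Finset.sum_add_distrib]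
    refine Finset.sum_congr rfl fun a _ => ?_
    rw [← Finset.sum_add_distrib]
    refine Finset.sum_congr rfl fun a' _ => ?_
    have h1 : TA lab S Y a a' - TA lab L Y a a' - TA lab H Y a a' =
        ∑ b ∈ Y, (ind L a b * ind H a' b - ind H a b * ind L a' b) := by
      unfold TA
      rw [← Finset.sum_sub_distrib, ← Finset.sum_sub_distrib]
      refine Finset.sum_congr rfl fun b _ => ?_
      rw [sigma_split lab hs a a' b]; ring
    rw [h1, sq, sq, Finset.sum_mul_sum, Finset.sum_mul_sum, ← Finset.sum_add_distrib]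
    refine Finset.sum_congr rfl fun b _ => ?_
    rw [← Finset.sum_add_distrib]
    refine Finset.sum_congr rfl fun b' _ => ?_
    rw [Xq_eq lab hs a a' b b']
    unfold strA
    ring
  have eB : ∑ b ∈ Y, ∑ b' ∈ Y, (∑ a ∈ X, strB L H b b' a) ^ 2 =
      ∑ b ∈ Y, ∑ b' ∈ Y, (TB lab S X b b' - TB lab L X b b' - TB lab H X b b') ^ 2 +
        2 * XS L H X Y := by
    unfold XS
    rw [← quad_comm]
    simp only [Finset.mul_sum]
    rw [← Finset.sum_add_distrib]
    refine Finset.sum_congr rfl fun b _ => ?_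
    rw [← Finset.sum_add_distrib]
    refine Finset.sum_congr rfl fun b' _ => ?_
    have h1 : TB lab S X b b' - TB lab L X b b' - TB lab H X b b' =
        ∑ a ∈ X, (ind L a b * ind H a b' - ind H a b * ind L a b') := by
      unfold TB
      rw [← Finset.sum_sub_distrib, ← Finset.sum_sub_distrib]
      refine Finset.sum_congr rfl fun a _ => ?_
      rw [tau_split lab hs b b' a]; ring
    rw [h1, sq, sq, Finset.sum_mul_sum, Finset.sum_mul_sum, ← Finset.sum_add_distrib]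
    refine Finset.sum_congr rfl fun a _ => ?_
    rw [← Finset.sum_add_distrib]
    refine Finset.sum_congr rfl fun a' _ => ?_
    rw [Xq_eq lab hs a a' b b']
    unfold strB
    ring
  have jA : ∑ a ∈ X, ∑ a' ∈ X, (TA lab S Y a a' - TA lab L Y a a' - TA lab H Y a a') ^ 2 ≤
      3 * (∑ a ∈ X, ∑ a' ∈ X, (TA lab S Y a a') ^ 2) +
      3 * (∑ a ∈ X, ∑ a' ∈ X, (TA lab L Y a a') ^ 2) +
      3 * (∑ a ∈ X, ∑ a' ∈ X, (TA lab H Y a a') ^ 2) := by
    simp only [Finset.mul_sum, ← Finset.sum_add_distrib]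
    refine Finset.sum_le_sum fun a _ => Finset.sum_le_sum fun a' _ => ?_
    nlinarith [sq_nonneg (TA lab S Y a a' + TA lab L Y a a'),
      sq_nonneg (TA lab S Y a a' + TA lab H Y a a'), sq_nonneg (TA lab L Y a a' - TA lab H Y a a')]
  have jB : ∑ b ∈ Y, ∑ b' ∈ Y, (TB lab S X b b' - TB lab L X b b' - TB lab H X b b') ^ 2 ≤
      3 * (∑ b ∈ Y, ∑ b' ∈ Y, (TB lab S X b b') ^ 2) +
      3 * (∑ b ∈ Y, ∑ b' ∈ Y, (TB lab L X b b') ^ 2) +
      3 * (∑ b ∈ Y, ∑ b' ∈ Y, (TB lab H X b b') ^ 2) := by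
    simp only [Finset.mul_sum, ← Finset.sum_add_distrib]
    refine Finset.sum_le_sum fun b _ => Finset.sum_le_sum fun b' _ => ?_
    nlinarith [sq_nonneg (TB lab S X b b' + TB lab L X b b'),
      sq_nonneg (TB lab S X b b' + TB lab H X b b'), sq_nonneg (TB lab L X b b' - TB lab H X b b')]
  rw [eA, eB]
  linarith

end Pool.Agent.Helper84.NestedC4
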