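import Pool.Agent.Helper84.NestedC4Main
import Pool.Agent.Helper84.EdgeOrdered

/-!
# The upper bound for `ex'_<(C_4^{1243}, n)`
-/

set_option autoImplicit false

open Finset

namespace Pool.Agent.Helper84.NestedC4

/-- the labelling of the bipartite double cover -/
def dlab {n : ℕ} (r : Sym2 (Fin n) → ℕ) (p : Fin n × Fin n) : ℕ :=
  2 * r s(p.1, p.2) + (if p.1 < p.2 then 1 else 0)

lemma rank_inj {V : Type*} (G : EdgeOrderedGraph V) {r : Sym2 V → ℕ}
    (hr : ∀ e f : G.graph.edgeSet, G.ord.lt e f ↔ r e.1 < r f.1) {e f : Sym2 V}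
    (he : e ∈ G.graph.edgeSet) (hf : f ∈ G.graph.edgeSet) (h : r e = r f) : e = f := by
  have h1 := hr ⟨e, he⟩ ⟨f, hf⟩
  have h2 := hr ⟨f, hf⟩ ⟨e, he⟩
  rcases @lt_trichotomy _ G.ord (⟨e, he⟩ : G.graph.edgeSet) ⟨f, hf⟩ with h3 | h3 | h3
  · exact absurd (h1.mp h3) (by simp [h])
  · exact congrArg Subtype.val h3
  · exact absurd (h2.mp h3) (by simp [h])

lemma dlab_lt {n : ℕ} (G : EdgeOrderedGraph (Fin n)) {r : Sym2 (Fin n) → ℕ}
    (hr : ∀ e f : G.graph.edgeSet, G.ord.lt e f ↔ r e.1 < r f.1) {p q : Fin n × Fin n}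
    (hp : G.graph.Adj p.1 p.2) (hq : G.graph.Adj q.1 q.2) (hne : s(p.1, p.2) ≠ s(q.1, q.2))
    (h : dlab r p < dlab r q) : r s(p.1, p.2) < r s(q.1, q.2) := by
  have h1 : r s(p.1, p.2) ≠ r s(q.1, q.2) := fun h2 => hne (rank_inj G hr hp hq h2)
  unfold dlab at h
  split_ifs at h <;> omega

lemma edges_bound {n : ℕ} (G : EdgeOrderedGraph (Fin n)) (hG : ¬ G.Contains C4_1243) :
    (G.graph.edgeSet.ncard : ℝ) ≤ 200000 * (n : ℝ) ^ (3 / 2 : ℝ) := by
  classical
  obtain ⟨r, hr⟩ := exists_rank G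
  set E : Finset (Fin n × Fin n) := Finset.univ.filter (fun p => G.graph.Adj p.1 p.2) with hE
  have memE : ∀ a b, (a, b) ∈ E ↔ G.graph.Adj a b := by intro a b; simp [hE]
  have hinj : Set.InjOn (dlab r) E := by
    rintro ⟨a, b⟩ hp ⟨c, d⟩ hq h
    have hp' : G.graph.Adj a b := (memE a b).mp hp
    have hq' : G.graph.Adj c d := (memE c d).mp hq
    have hne := hp'.ne
    have h1 : r s(a, b) = r s(c, d) ∧ (a < b ↔ c < d) := by
      unfold dlab at h
      simp only at h
      split_ifs at h with h3 h4 h4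
      · exact ⟨by omega, by simp [h3, h4]⟩
      · omega
      · omega
      · exact ⟨by omega, by simp [h3, h4]⟩
    have h2 := rank_inj G hr (SimpleGraph.mem_edgeSet _ |>.mpr hp')
      (SimpleGraph.mem_edgeSet _ |>.mpr hq') h1.1
    rw [Sym2.eq_iff] at h2
    rcases h2 with ⟨rfl, rfl⟩ | ⟨rfl, rfl⟩
    · rfl
    · exfalso
      have := h1.2
      rcases lt_or_gt_of_ne hne with h5 | h5
      · exact lt_asymm h5 (this.mp h5)
      · exact lt_asymm h5 (this.mpr h5)
  have hNF : NF (dlab r) E := by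
    intro a a' b b' hab hbb m1 m2 m3 m4 ⟨o1, o2, o3, o4⟩
    rw [memE] at m1 m2 m3 m4
    have d1 := m1.ne
    have d2 := m2.ne
    have d3 := m3.ne
    have d4 := m4.ne
    have p1 : r s(a, b) < r s(a, b') := dlab_lt G hr (p := (a, b)) (q := (a, b')) m1 m2
      (by rw [Ne, Sym2.eq_iff]; rintro (⟨-, h⟩ | ⟨h, -⟩) <;> [exact hbb h; exact d2 h]) o1
    have p2 : r s(a, b) < r s(a', b) := dlab_lt G hr (p := (a, b)) (q := (a', b)) m1 m3
      (by rw [Ne, Sym2.eq_iff]; rintro (⟨h, -⟩ | ⟨-, h⟩) <;> [exact hab h; exact d3 h.symm]) o2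
    have p3 : r s(a, b') < r s(a', b') := dlab_lt G hr (p := (a, b')) (q := (a', b')) m2 m4
      (by rw [Ne, Sym2.eq_iff]; rintro (⟨h, -⟩ | ⟨-, h⟩) <;> [exact hab h; exact d4 h.symm]) o3
    have p4 : r s(a', b) < r s(a', b') := dlab_lt G hr (p := (a', b)) (q := (a', b')) m3 m4
      (by rw [Ne, Sym2.eq_iff]; rintro (⟨-, h⟩ | ⟨h, -⟩) <;> [exact hbb h; exact d4 h]) o4
    have p5 : r s(a, b') ≠ r s(a', b) := by
      intro h
      have := rank_inj G hr (SimpleGraph.mem_edgeSet _ |>.mpr m2)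
        (SimpleGraph.mem_edgeSet _ |>.mpr m3) h
      rw [Sym2.eq_iff] at this
      rcases this with ⟨h, -⟩ | ⟨h, -⟩
      · exact hab h
      · exact d1 h
    apply hG
    rcases lt_or_gt_of_ne p5 with h | h
    · -- `ab' < a'b`: the cycle `b, a, b', a'`
      refine contains_of_cycle G hr ![b, a, b', a'] ?_ m1.symm m2 m4.symm m3 ?_ ?_ ?_
      · intro i j hij
        fin_cases i <;> fin_cases j <;> simp_all
      · show r s(b, a) < r s(a, b')
        rw [Sym2.eq_swap]; exact p1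
      · show r s(a, b') < r s(a', b)
        exact h
      · show r s(a', b) < r s(b', a')
        rw [Sym2.eq_swap (a := b')]; exact p4
    · refine contains_of_cycle G hr ![a, b, a', b'] ?_ m1 m3.symm m4 m2.symm ?_ ?_ ?_
      · intro i j hij
        fin_cases i <;> fin_cases j <;> simp_all
      · show r s(a, b) < r s(b, a')
        rw [Sym2.eq_swap (a := b)]; exact p2
      · show r s(b, a') < r s(b', a)
        rw [Sym2.eq_swap (a := b), Sym2.eq_swap (a := b')]; exact h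
      · show r s(b', a) < r s(a', b')
        rw [Sym2.eq_swap (a := b')]; exact p3
  have hb := bip_bound (dlab r) _ Finset.univ Finset.univ E rfl
    (by intro e _; simp) hinj hNF
  have hcard : 2 * G.graph.edgeSet.ncard ≤ E.card := by
    have h1 : Fintype.card G.graph.Dart = 2 * G.graph.edgeFinset.card :=
      G.graph.dart_card_eq_twice_card_edges
    have h2 : G.graph.edgeSet.ncard = G.graph.edgeFinset.card := by
      rw [Set.ncard_eq_toFinset_card']; rfl
    rw [h2, ← h1, ← Finset.card_univ]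
    refine Finset.card_le_card_of_injOn (fun d => (d.fst, d.snd)) ?_ ?_
    · intro d _
      simp [hE, d.adj]
    · intro d _ d' _ h
      simp only [Prod.mk.injEq] at h
      exact SimpleGraph.Dart.ext _ _ (Prod.ext h.1 h.2)
  have hcardR : 2 * (G.graph.edgeSet.ncard : ℝ) ≤ E.card := by exact_mod_cast hcard
  have hFn : Fn (n : ℝ) n = 2 * (n : ℝ) ^ (3 / 2 : ℝ) := by
    unfold Fn
    rcases Nat.eq_zero_or_pos n with h | h
    · subst h
      rw [Nat.cast_zero, Real.zero_rpow (by norm_num)]; simp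
    · have hn : (0 : ℝ) < n := by exact_mod_cast h
      rw [Real.sqrt_eq_rpow]
      have : (n : ℝ) * (n : ℝ) ^ (1 / 2 : ℝ) = (n : ℝ) ^ (3 / 2 : ℝ) := by
        conv_lhs => rw [← Real.rpow_one_add' hn.le (by norm_num)]
        norm_num
      rw [this]; ring
  simp only [Finset.card_univ, Fintype.card_fin] at hb
  rw [hFn] at hb
  linarith

theorem exOrd_le (n : ℕ) : (exOrd C4_1243 n : ℝ) ≤ 200000 * (n : ℝ) ^ (3 / 2 : ℝ) := by
  unfold exOrd
  set S := {m | ∃ G : EdgeOrderedGraph (Fin n), ¬ G.Contains C4_1243 ∧ G.graph.edgeSet.ncard = m}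
    with hS
  have hb : ∀ m ∈ S, (m : ℝ) ≤ 200000 * (n : ℝ) ^ (3 / 2 : ℝ) := by
    rintro m ⟨G, hG, rfl⟩
    exact edges_bound G hG
  rcases S.eq_empty_or_nonempty with h | h
  · rw [h, csSup_empty]
    simp only [bot_eq_zero', Nat.cast_zero]
    positivity
  · have hbdd : BddAbove S := by
      refine ⟨⌊200000 * (n : ℝ) ^ (3 / 2 : ℝ)⌋₊, ?_⟩
      intro m hm
      exact Nat.le_floor (hb m hm)
    exact hb _ (Nat.sSup_mem h hbdd)

end Pool.Agent.Helper84.NestedC4
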