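import Pool.Agent.Helper84.NestedC4Final

/-!
# The lower bound for `ex'_<(C_4^{1243}, n)`: point-line incidence graphs
-/

set_option autoImplicit false

open Finset

namespace Pool.Agent.Helper84.NestedC4

/-- the incidence graph of points and non-vertical lines -/
def incGraph (p : ℕ) : SimpleGraph ((ZMod p × ZMod p) ⊕ (ZMod p × ZMod p)) where
  Adj u v := (∃ x y a b, u = Sum.inl (x, y) ∧ v = Sum.inr (a, b) ∧ y = a * x + b) ∨
    (∃ x y a b, v = Sum.inl (x, y) ∧ u = Sum.inr (a, b) ∧ y = a * x + b)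
  symm := ⟨fun u v h => by
    rcases h with h | h
    · exact Or.inr h
    · exact Or.inl h⟩
  loopless := ⟨fun u h => by
    rcases h with ⟨x, y, a, b, h1, h2, -⟩ | ⟨x, y, a, b, h1, h2, -⟩ <;> simp_all⟩

/-- two vertices have at most one common neighbour -/
def CFree {V : Type*} (G : SimpleGraph V) : Prop :=
  ∀ u v w w', u ≠ v → G.Adj u w → G.Adj w v → G.Adj u w' → G.Adj w' v → w = w'

lemma incGraph_cfree (p : ℕ) [Fact p.Prime] : CFree (incGraph p) := by
  intro u v w w' huv h1 h2 h3 h4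
  rcases h1 with ⟨x, y, a, b, rfl, rfl, e1⟩ | ⟨x, y, a, b, rfl, rfl, e1⟩
  · rcases h2 with ⟨x2, y2, a2, b2, h, _⟩ | ⟨x2, y2, a2, b2, rfl, h, e2⟩
    · simp at h
    simp only [Sum.inr.injEq, Prod.mk.injEq] at h
    obtain ⟨rfl, rfl⟩ := h
    rcases h3 with ⟨x3, y3, c, d, h, rfl, e3⟩ | ⟨x3, y3, c, d, _, h, _⟩
    · simp only [Sum.inl.injEq, Prod.mk.injEq] at h
      obtain ⟨rfl, rfl⟩ := h
      rcases h4 with ⟨x4, y4, c4, d4, h, _⟩ | ⟨x4, y4, c4, d4, h, h', e4⟩
      · simp at h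
      simp only [Sum.inl.injEq, Prod.mk.injEq] at h
      simp only [Sum.inr.injEq, Prod.mk.injEq] at h'
      obtain ⟨rfl, rfl⟩ := h
      obtain ⟨rfl, rfl⟩ := h'
      have hx : x ≠ x2 := by
        rintro rfl
        exact huv (by rw [e1, e2])
      have : (a - c) * (x - x2) = 0 := by linear_combination e2 - e1 + e3 - e4
      rcases mul_eq_zero.mp this with h5 | h5
      · have hac : a = c := sub_eq_zero.mp h5
        subst hac
        have : b = d := by linear_combination e3 - e1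
        rw [this]
      · exact absurd (sub_eq_zero.mp h5) hx
    · simp at h
  · rcases h2 with ⟨x2, y2, a2, b2, h, rfl, e2⟩ | ⟨x2, y2, a2, b2, _, h, _⟩
    · simp only [Sum.inl.injEq, Prod.mk.injEq] at h
      obtain ⟨rfl, rfl⟩ := h
      rcases h3 with ⟨x3, y3, c, d, h, _⟩ | ⟨x3, y3, c, d, rfl, h, e3⟩
      · simp at h
      simp only [Sum.inr.injEq, Prod.mk.injEq] at h
      obtain ⟨rfl, rfl⟩ := h
      rcases h4 with ⟨x4, y4, c4, d4, h, h', e4⟩ | ⟨x4, y4, c4, d4, h, _⟩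
      · simp only [Sum.inl.injEq, Prod.mk.injEq] at h
        simp only [Sum.inr.injEq, Prod.mk.injEq] at h'
        obtain ⟨rfl, rfl⟩ := h
        obtain ⟨rfl, rfl⟩ := h'
        have hab : (a - a2) * (x - x3) = 0 := by linear_combination e2 - e1 + e3 - e4
        rcases mul_eq_zero.mp hab with h5 | h5
        · exfalso
          have hac : a = a2 := sub_eq_zero.mp h5
          subst hac
          have : b = b2 := by linear_combination e2 - e1
          exact huv (by rw [this])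
        · have hxx : x = x3 := sub_eq_zero.mp h5
          subst hxx
          rw [e1, e3]
      · simp at h
    · simp at h

lemma CFree.map {V W : Type*} {G : SimpleGraph V} (hG : CFree G) (f : V ↪ W) :
    CFree (G.map f) := by
  intro u v w w' huv h1 h2 h3 h4
  rw [SimpleGraph.map_adj] at h1 h2 h3 h4
  obtain ⟨u1, w1, a1, rfl, rfl⟩ := h1
  obtain ⟨w2, v2, a2, e2, rfl⟩ := h2
  obtain ⟨u3, w3, a3, e3, rfl⟩ := h3
  obtain ⟨w4, v4, a4, e4, e5⟩ := h4
  have := f.injective e2; subst this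
  have := f.injective e3; subst this
  have := f.injective e4; subst this
  have := f.injective e5; subst this
  rw [hG u3 v4 w2 w4 (fun h => huv (by rw [h])) a1 a2 a3 a4]

lemma not_contains_of_cfree {V : Type*} (G : EdgeOrderedGraph V) (hG : CFree G.graph) :
    ¬ G.Contains C4_1243 := by
  rintro ⟨φ, hφ, -⟩
  have a01 : (SimpleGraph.cycleGraph 4).Adj 0 1 := by decide
  have a12 : (SimpleGraph.cycleGraph 4).Adj 1 2 := by decide
  have a03 : (SimpleGraph.cycleGraph 4).Adj 0 3 := by decide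
  have a32 : (SimpleGraph.cycleGraph 4).Adj 3 2 := by decide
  have h := hG (φ (0 : Fin 4)) (φ (2 : Fin 4)) (φ (1 : Fin 4)) (φ (3 : Fin 4))
    (fun h => by simpa using hφ h) (φ.map_rel a01) (φ.map_rel a12) (φ.map_rel a03) (φ.map_rel a32)
  have h2 := hφ h
  revert h2
  decide

lemma incGraph_card (p : ℕ) [Fact p.Prime] : p ^ 3 ≤ (incGraph p).edgeSet.ncard := by
  classical
  have : Finite (incGraph p).edgeSet := inferInstance
  let g : ZMod p × ZMod p × ZMod p → Sym2 ((ZMod p × ZMod p) ⊕ (ZMod p × ZMod p)) :=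
    fun t => s(Sum.inl (t.1, t.2.1 * t.1 + t.2.2), Sum.inr (t.2.1, t.2.2))
  have hg : Function.Injective g := by
    rintro ⟨x, a, b⟩ ⟨x', a', b'⟩ h
    simp only [g, Sym2.eq_iff] at h
    rcases h with ⟨h1, h2⟩ | ⟨h1, _⟩
    · simp only [Sum.inl.injEq, Sum.inr.injEq, Prod.mk.injEq] at h1 h2
      obtain ⟨rfl, rfl⟩ := h2
      rw [h1.1]
    · simp at h1
  have hsub : Set.range g ⊆ (incGraph p).edgeSet := by
    rintro _ ⟨⟨x, a, b⟩, rfl⟩
    exact Or.inl ⟨x, a * x + b, a, b, rfl, rfl, rfl⟩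
  calc p ^ 3 = (Set.range g).ncard := by
        rw [← Set.image_univ, Set.ncard_image_of_injective _ hg, Set.ncard_univ]
        simp
        ring
    _ ≤ _ := Set.ncard_le_ncard hsub (Set.toFinite _)

lemma exOrd_ge {p n : ℕ} [Fact p.Prime] (h : 2 * p ^ 2 ≤ n) : p ^ 3 ≤ exOrd C4_1243 n := by
  classical
  have hc : Fintype.card ((ZMod p × ZMod p) ⊕ (ZMod p × ZMod p)) ≤ Fintype.card (Fin n) := by
    simp only [Fintype.card_sum, Fintype.card_prod, ZMod.card, Fintype.card_fin]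
    calc p * p + p * p = 2 * p ^ 2 := by ring
      _ ≤ n := h
  obtain ⟨f⟩ := Function.Embedding.nonempty_of_card_le hc
  let G : EdgeOrderedGraph (Fin n) :=
    ⟨(incGraph p).map f, IsWellOrder.linearOrder WellOrderingRel⟩
  have hG : ¬ G.Contains C4_1243 := not_contains_of_cfree G ((incGraph_cfree p).map f)
  have hcard : p ^ 3 ≤ G.graph.edgeSet.ncard := by
    show p ^ 3 ≤ ((incGraph p).map f).edgeSet.ncard
    rw [SimpleGraph.edgeSet_map, Set.ncard_image_of_injective _ f.sym2Map.injective]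
    exact incGraph_card p
  refine hcard.trans (le_csSup ?_ ⟨G, hG, rfl⟩)
  refine ⟨⌊200000 * (n : ℝ) ^ (3 / 2 : ℝ)⌋₊, ?_⟩
  rintro m ⟨G', hG', rfl⟩
  exact Nat.le_floor (edges_bound G' hG')

lemma exOrd_lower {n : ℕ} (hn : 8 ≤ n) :
    1 / 32 * (n : ℝ) ^ (3 / 2 : ℝ) ≤ (exOrd C4_1243 n : ℝ) := by
  set k := Nat.sqrt (n / 8) with hk
  have hk0 : k ≠ 0 := by
    rw [hk, Ne, Nat.sqrt_eq_zero]; omega
  obtain ⟨p, hp, h1, h2⟩ := Nat.exists_prime_lt_and_le_two_mul k hk0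
  have : Fact p.Prime := ⟨hp⟩
  have hle : k * k ≤ n / 8 := Nat.sqrt_le _
  have hlt : n / 8 < (k + 1) * (k + 1) := Nat.lt_succ_sqrt _
  have h3 : 2 * p ^ 2 ≤ n := by
    have : p ^ 2 ≤ (2 * k) ^ 2 := Nat.pow_le_pow_left h2 2
    have h4 : (2 * k) ^ 2 = 4 * (k * k) := by ring
    omega
  have h5 : n < 8 * p ^ 2 := by
    have : (k + 1) ^ 2 ≤ p ^ 2 := Nat.pow_le_pow_left h1 2
    have h6 : (k + 1) ^ 2 = (k + 1) * (k + 1) := by ring
    omega
  have h7 := exOrd_ge h3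
  have h8 : (p : ℝ) ^ 3 ≤ exOrd C4_1243 n := by exact_mod_cast h7
  refine le_trans ?_ h8
  have h9 : (n : ℝ) ≤ 8 * (p : ℝ) ^ 2 := by exact_mod_cast h5.le
  have h10 : (n : ℝ) ^ (3 / 2 : ℝ) ≤ (9 * (p : ℝ) ^ 2) ^ (3 / 2 : ℝ) := by
    apply Real.rpow_le_rpow (by positivity) (by nlinarith [sq_nonneg (p : ℝ)]) (by norm_num)
  have h11 : (9 * (p : ℝ) ^ 2) ^ (3 / 2 : ℝ) = 27 * (p : ℝ) ^ 3 := by
    have : (9 * (p : ℝ) ^ 2) = (3 * p) ^ (2 : ℝ) := by
      rw [Real.rpow_two]; ring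
    rw [this, ← Real.rpow_mul (by positivity)]
    have h12 : (2 : ℝ) * (3 / 2) = ((3 : ℕ) : ℝ) := by norm_num
    rw [h12, Real.rpow_natCast]
    ring
  rw [h11] at h10
  have : 0 ≤ (p : ℝ) ^ 3 := by positivity
  linarith

end Pool.Agent.Helper84.NestedC4
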