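import Mathlib

/-!
# Real inequalities used in the bound for the nested 4-cycle
-/

set_option autoImplicit false

namespace Pool.Agent.Helper84.NestedC4

/-- the bounding function -/
noncomputable def Fn (x y : ℝ) : ℝ := x * √y + y * √x

lemma Fn_nonneg {x y : ℝ} (hx : 0 ≤ x) (hy : 0 ≤ y) : 0 ≤ Fn x y := by
  unfold Fn; positivity

lemma Fn_comm (x y : ℝ) : Fn x y = Fn y x := by unfold Fn; ring

lemma heavy_real {T C x y h m : ℝ} (hT : 1 ≤ T) (hC : 0 < C) (hx : 0 < x) (hy : 0 < y)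
    (hh : 0 ≤ h) (hm : C * Fn x y < m) (h1 : h * (T * m / y) ≤ C * Fn x h) :
    C * Fn x h ≤ m / T := by
  have hT0 : 0 < T := by linarith
  have hm0 : 0 < m := lt_of_le_of_lt (mul_nonneg hC.le (Fn_nonneg hx.le hy.le)) hm
  rcases hh.eq_or_lt with h0 | h0
  · have : Fn x h = 0 := by unfold Fn; rw [← h0]; simp
    rw [this, mul_zero]; positivity
  obtain ⟨p, hp, rfl⟩ : ∃ p : ℝ, 0 < p ∧ x = p ^ 2 :=
    ⟨√x, Real.sqrt_pos.mpr hx, (Real.sq_sqrt hx.le).symm⟩
  obtain ⟨q, hq, rfl⟩ : ∃ q : ℝ, 0 < q ∧ y = q ^ 2 :=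
    ⟨√y, Real.sqrt_pos.mpr hy, (Real.sq_sqrt hy.le).symm⟩
  obtain ⟨r, hr, rfl⟩ : ∃ r : ℝ, 0 < r ∧ h = r ^ 2 :=
    ⟨√h, Real.sqrt_pos.mpr h0, (Real.sq_sqrt h0.le).symm⟩
  unfold Fn at *
  rw [Real.sqrt_sq hp.le, Real.sqrt_sq hq.le] at hm
  rw [Real.sqrt_sq hp.le, Real.sqrt_sq hr.le] at h1
  rw [Real.sqrt_sq hp.le, Real.sqrt_sq hr.le]
  -- r T < q
  have key : r * T < q := by
    by_contra hcon
    push Not at hcon
    have h2 : r ^ 2 * (T * m) ≤ C * (p ^ 2 * r + r ^ 2 * p) * q ^ 2 := by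
      calc r ^ 2 * (T * m) = r ^ 2 * (T * m / q ^ 2) * q ^ 2 := by field_simp
        _ ≤ _ := mul_le_mul_of_nonneg_right h1 (by positivity)
    have h3 : r ^ 2 * (T * (C * (p ^ 2 * q + q ^ 2 * p))) < r ^ 2 * (T * m) := by
      apply mul_lt_mul_of_pos_left _ (by positivity)
      exact mul_lt_mul_of_pos_left hm hT0
    have h4 : r ^ 2 * (T * (C * (p ^ 2 * q + q ^ 2 * p))) <
        C * (p ^ 2 * r + r ^ 2 * p) * q ^ 2 := lt_of_lt_of_le h3 h2
    have h5 : (C * r * p * q) * (r * T * (p + q)) < (C * r * p * q) * ((p + r) * q) := by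
      calc (C * r * p * q) * (r * T * (p + q))
          = r ^ 2 * (T * (C * (p ^ 2 * q + q ^ 2 * p))) := by ring
        _ < C * (p ^ 2 * r + r ^ 2 * p) * q ^ 2 := h4
        _ = _ := by ring
    have h6 : r * T * (p + q) < (p + r) * q := lt_of_mul_lt_mul_left h5 (by positivity)
    have h7 : r * q ≤ r * T * q := by
      have : r * q * 1 ≤ r * q * T := mul_le_mul_of_nonneg_left hT (by positivity)
      linarith
    have h8 : q * p ≤ r * T * p := mul_le_mul_of_nonneg_right hcon hp.le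
    nlinarith
  have hr' : r ≤ q / T := by rw [le_div_iff₀ hT0]; exact key.le
  have hr2 : r ^ 2 ≤ q ^ 2 / T := by
    have h2 : r ^ 2 ≤ (q / T) ^ 2 := by gcongr
    have h3 : (q / T) ^ 2 ≤ q ^ 2 / T := by
      rw [div_pow]
      apply div_le_div_of_nonneg_left (by positivity) hT0
      nlinarith
    linarith
  calc C * (p ^ 2 * r + r ^ 2 * p) ≤ C * (p ^ 2 * (q / T) + (q ^ 2 / T) * p) := by gcongr
    _ = C * (p ^ 2 * q + q ^ 2 * p) / T := by ring
    _ ≤ m / T := by gcongr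

lemma sqrt_amgm {u v : ℝ} (hu : 0 ≤ u) (hv : 0 < v) : √(u * v) ≤ √v * ((1 + u) / 2) := by
  rw [Real.sqrt_mul hu]
  have h1 : √u ≤ (1 + u) / 2 := by
    have h := sq_nonneg (√u - 1)
    have h2 := Real.sq_sqrt hu
    nlinarith
  have h2 := Real.sqrt_nonneg v
  nlinarith

lemma final_real {C x y al be m ml mu : ℝ} (hC : 0 < C) (hx : 0 < x) (hy : 0 < y)
    (ha0 : 0 ≤ al) (ha1 : al ≤ 1) (hb0 : 0 ≤ be) (hb1 : be ≤ 1)
    (hm : C * Fn x y < m)
    (h1 : ml ≤ C * Fn (al * x) (be * y)) (h2 : mu ≤ C * Fn ((1 - al) * x) ((1 - be) * y))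
    (h3 : 24 / 25 * m ≤ ml + mu) (h4 : ml ≤ 51 / 100 * m) (h5 : mu ≤ 51 / 100 * m) : False := by
  set A := C * (x * √y) with hA
  set B := C * (y * √x) with hB
  have hA0 : 0 ≤ A := by positivity
  have hB0 : 0 ≤ B := by positivity
  have hAB : A + B < m := by
    calc A + B = C * Fn x y := by rw [hA, hB]; unfold Fn; ring
      _ < m := hm
  have e1 : C * Fn (al * x) (be * y) ≤ A * (al * (1 + be) / 2) + B * (be * (1 + al) / 2) := by
    unfold Fn
    have s1 := sqrt_amgm hb0 hy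
    have s2 := sqrt_amgm ha0 hx
    have s3 : al * x * √(be * y) ≤ al * x * (√y * ((1 + be) / 2)) := by gcongr
    have s4 : be * y * √(al * x) ≤ be * y * (√x * ((1 + al) / 2)) := by gcongr
    calc C * (al * x * √(be * y) + be * y * √(al * x)) ≤
        C * (al * x * (√y * ((1 + be) / 2)) + be * y * (√x * ((1 + al) / 2))) := by gcongr
      _ = _ := by rw [hA, hB]; ring
  have e2 : C * Fn ((1 - al) * x) ((1 - be) * y) ≤
      A * ((1 - al) * (2 - be) / 2) + B * ((1 - be) * (2 - al) / 2) := by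
    unfold Fn
    have ha' : 0 ≤ 1 - al := by linarith
    have hb' : 0 ≤ 1 - be := by linarith
    have s1 := sqrt_amgm hb' hy
    have s2 := sqrt_amgm ha' hx
    have s3 : (1 - al) * x * √((1 - be) * y) ≤ (1 - al) * x * (√y * ((1 + (1 - be)) / 2)) := by
      gcongr
    have s4 : (1 - be) * y * √((1 - al) * x) ≤ (1 - be) * y * (√x * ((1 + (1 - al)) / 2)) := by
      gcongr
    calc C * ((1 - al) * x * √((1 - be) * y) + (1 - be) * y * √((1 - al) * x)) ≤
        C * ((1 - al) * x * (√y * ((1 + (1 - be)) / 2)) +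
          (1 - be) * y * (√x * ((1 + (1 - al)) / 2))) := by gcongr
      _ = _ := by rw [hA, hB]; ring
  set d := al * (1 - be) + be * (1 - al) with hd
  have hd0 : 0 ≤ d := by
    have := mul_nonneg ha0 (sub_nonneg.mpr hb1)
    have := mul_nonneg hb0 (sub_nonneg.mpr ha1)
    linarith
  have hd1 : d ≤ 1 := by
    have := mul_nonneg ha0 hb0
    have := mul_nonneg (sub_nonneg.mpr ha1) (sub_nonneg.mpr hb1)
    nlinarith
  have f1 : ml + mu ≤ (A + B) * (1 - d / 2) := by
    have : A * (al * (1 + be) / 2) + B * (be * (1 + al) / 2) +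
        (A * ((1 - al) * (2 - be) / 2) + B * ((1 - be) * (2 - al) / 2)) =
        (A + B) * (1 - d / 2) := by rw [hd]; ring
    linarith
  have hm0 : 0 < m := by linarith
  have f2 : (A + B) * (1 - d / 2) ≤ m * (1 - d / 2) := by
    apply mul_le_mul_of_nonneg_right hAB.le; linarith
  have f3 : d ≤ 2 / 25 := by
    have : 24 / 25 * m ≤ m * (1 - d / 2) := by linarith
    have h' : m * (24 / 25) ≤ m * (1 - d / 2) := by linarith
    have := le_of_mul_le_mul_left h' hm0
    linarith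
  have g1 : 9 / 20 * m ≤ A * al + B * be := by
    have k1 : A * (al * (1 + be) / 2) ≤ A * al := by
      apply mul_le_mul_of_nonneg_left _ hA0; nlinarith
    have k2 : B * (be * (1 + al) / 2) ≤ B * be := by
      apply mul_le_mul_of_nonneg_left _ hB0; nlinarith
    linarith
  have g2 : 9 / 20 * m ≤ A * (1 - al) + B * (1 - be) := by
    have k1 : A * ((1 - al) * (2 - be) / 2) ≤ A * (1 - al) := by
      apply mul_le_mul_of_nonneg_left _ hA0; nlinarith
    have k2 : B * ((1 - be) * (2 - al) / 2) ≤ B * (1 - be) := by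
      apply mul_le_mul_of_nonneg_left _ hB0; nlinarith
    linarith
  have dd1 : al * (1 - be) ≤ 2 / 25 := by
    have := mul_nonneg hb0 (sub_nonneg.mpr ha1)
    linarith
  have dd2 : be * (1 - al) ≤ 2 / 25 := by
    have := mul_nonneg ha0 (sub_nonneg.mpr hb1)
    linarith
  -- either al or be is at least 9/20
  have hcase : 9 / 20 ≤ al ∨ 9 / 20 ≤ be := by
    by_contra hcon
    push Not at hcon
    have k1 : A * al ≤ A * (9 / 20) := mul_le_mul_of_nonneg_left hcon.1.le hA0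
    have k2 : B * be ≤ B * (9 / 20) := mul_le_mul_of_nonneg_left hcon.2.le hB0
    linarith
  have hfin : 1 - al ≤ 1 / 5 ∧ 1 - be ≤ 1 / 5 := by
    rcases hcase with h | h
    · have k1 : 9 / 20 * (1 - be) ≤ al * (1 - be) :=
        mul_le_mul_of_nonneg_right h (by linarith)
      have k2 : 1 - be ≤ 1 / 5 := by linarith
      have k3 : 4 / 5 * (1 - al) ≤ be * (1 - al) :=
        mul_le_mul_of_nonneg_right (by linarith) (by linarith)
      exact ⟨by linarith, k2⟩
    · have k1 : 9 / 20 * (1 - al) ≤ be * (1 - al) :=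
        mul_le_mul_of_nonneg_right h (by linarith)
      have k2 : 1 - al ≤ 1 / 5 := by linarith
      have k3 : 4 / 5 * (1 - be) ≤ al * (1 - be) :=
        mul_le_mul_of_nonneg_right (by linarith) (by linarith)
      exact ⟨k2, by linarith⟩
  have k1 : A * (1 - al) ≤ A * (1 / 5) := mul_le_mul_of_nonneg_left hfin.1 hA0
  have k2 : B * (1 - be) ≤ B * (1 / 5) := mul_le_mul_of_nonneg_left hfin.2 hB0
  linarith

/-- bound for the number of minority edges -/
lemma minority_real {x y m W K D : ℝ} (hx : 0 < x) (hy : 0 < y) (hW : 0 ≤ W) (hK : 0 ≤ K)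
    (hm : 200000 * Fn x y < m) (h1 : W ^ 2 ≤ y * K) (h2 : (2 * K) ^ 2 ≤ 6 * x ^ 2 * D)
    (h3 : D ≤ 200 * m / x * m + 200 * m / y * m) : W ≤ m / 100 := by
  have hF := Fn_nonneg hx.le hy.le
  have hm0 : 0 < m := by linarith
  have hF2 : x * y * (x + y) ≤ Fn x y ^ 2 := by
    unfold Fn
    have h4 := Real.sq_sqrt hx.le
    have h5 := Real.sq_sqrt hy.le
    have h6 : (x * √y + y * √x) ^ 2 = x ^ 2 * √y ^ 2 + y ^ 2 * √x ^ 2 + 2 * (x * √y * (y * √x)) := by
      ring
    rw [h6, h4, h5]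
    have : 0 ≤ x * √y * (y * √x) := by positivity
    nlinarith
  have e1 : W ^ 4 ≤ y ^ 2 * K ^ 2 := by
    have : (W ^ 2) ^ 2 ≤ (y * K) ^ 2 := by
      apply pow_le_pow_left₀ (by positivity) h1
    calc W ^ 4 = (W ^ 2) ^ 2 := by ring
      _ ≤ (y * K) ^ 2 := this
      _ = _ := by ring
  have e2 : y ^ 2 * K ^ 2 ≤ 300 * m ^ 2 * (x * y * (x + y)) := by
    have k1 : (2 * K) ^ 2 ≤ 6 * x ^ 2 * (200 * m / x * m + 200 * m / y * m) := by
      refine h2.trans ?_
      gcongr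
    have k2 : y ^ 2 * (2 * K) ^ 2 ≤ y ^ 2 * (6 * x ^ 2 * (200 * m / x * m + 200 * m / y * m)) := by
      gcongr
    have k3 : y ^ 2 * (6 * x ^ 2 * (200 * m / x * m + 200 * m / y * m)) =
        1200 * m ^ 2 * (x * y * (x + y)) := by
      field_simp
      ring
    nlinarith
  have e3 : W ^ 4 ≤ 300 * m ^ 2 * Fn x y ^ 2 := by
    refine e1.trans (e2.trans ?_)
    gcongr
  have e4 : (200000 * Fn x y) ^ 2 ≤ m ^ 2 := by
    apply pow_le_pow_left₀ (by positivity) hm.le
  have e5 : W ^ 4 ≤ (m / 100) ^ 4 := by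
    have k1 : Fn x y ^ 2 ≤ m ^ 2 / 40000000000 := by
      rw [le_div_iff₀ (by norm_num)]
      calc Fn x y ^ 2 * 40000000000 = (200000 * Fn x y) ^ 2 := by ring
        _ ≤ m ^ 2 := e4
    have k2 : 300 * m ^ 2 * Fn x y ^ 2 ≤ 300 * m ^ 2 * (m ^ 2 / 40000000000) := by gcongr
    have k3 : 300 * m ^ 2 * (m ^ 2 / 40000000000) ≤ (m / 100) ^ 4 := by
      have : 0 ≤ m ^ 4 := by positivity
      have k4 : 300 * m ^ 2 * (m ^ 2 / 40000000000) = (300 / 40000000000) * m ^ 4 := by ring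
      have k5 : (m / 100) ^ 4 = (1 / 100000000) * m ^ 4 := by ring
      rw [k4, k5]
      nlinarith
    exact e3.trans (k2.trans k3)
  exact le_of_pow_le_pow_left₀ (by norm_num) (by positivity) e5

end Pool.Agent.Helper84.NestedC4
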