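import Pool.Agent.Helper84.NestedC4
import Pool.Agent.Helper84.NestedC4Real

/-!
# The bipartite bound for edge-ordered graphs without the 4-cycle whose extreme edges are opposite
-/

set_option autoImplicit false

open Finset

namespace Pool.Agent.Helper84.NestedC4

variable {α β : Type*} [DecidableEq α] [DecidableEq β]

lemma card_eq_sum {S : Finset (α × β)} {X : Finset α} {Y : Finset β} (h : S ⊆ X ×ˢ Y) :
    (S.card : ℝ) = ∑ a ∈ X, ∑ b ∈ Y, ind S a b := by
  have h1 : ∑ a ∈ X, ∑ b ∈ Y, ind S a b = ∑ p ∈ X ×ˢ Y, (if p ∈ S then (1 : ℝ) else 0) := by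
    rw [Finset.sum_product]; rfl
  rw [h1, Finset.sum_ite_mem, Finset.inter_eq_right.mpr h]
  simp

lemma heavy_sum {ι : Type*} (Y : Finset ι) (deg : ι → ℝ) {x C m T : ℝ}
    (hT : 1 ≤ T) (hC : 0 < C) (hx : 0 < x) (hsum : ∑ b ∈ Y, deg b = m) (hY : Y.Nonempty)
    (hm : C * Fn x Y.card < m) (hIH : ∀ H, H ⊂ Y → ∑ b ∈ H, deg b ≤ C * Fn x H.card) :
    ∑ b ∈ Y with T * m / Y.card < deg b, deg b ≤ m / T := by
  set H := Y.filter (fun b => T * m / Y.card < deg b) with hH
  have hy : (0 : ℝ) < Y.card := by exact_mod_cast hY.card_pos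
  have hsub : H ⊆ Y := Finset.filter_subset _ _
  have hm0 : 0 < m := lt_of_le_of_lt (mul_nonneg hC.le (Fn_nonneg hx.le hy.le)) hm
  have hlow : H.card * (T * m / Y.card) ≤ ∑ b ∈ H, deg b := by
    rw [← nsmul_eq_mul]
    apply Finset.card_nsmul_le_sum
    intro b hb
    exact (Finset.mem_filter.mp hb).2.le
  have hss : H ⊂ Y := by
    refine hsub.ssubset_of_ne ?_
    intro heq
    have h1 : ∑ b ∈ Y, (T * m / Y.card) < ∑ b ∈ Y, deg b := by
      apply Finset.sum_lt_sum_of_nonempty hY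
      intro b hb
      rw [← heq] at hb
      exact (Finset.mem_filter.mp hb).2
    rw [Finset.sum_const, nsmul_eq_mul, hsum] at h1
    have e : (Y.card : ℝ) * (T * m / Y.card) = T * m := by field_simp
    rw [e] at h1
    nlinarith
  exact (hIH H hss).trans
    (heavy_real hT hC hx hy (Nat.cast_nonneg _) hm (hlow.trans (hIH H hss)))

lemma exists_split (lab : α × β → ℕ) (S : Finset (α × β)) (hinj : Set.InjOn lab S) :
    ∃ L H : Finset (α × β), Split lab S L H ∧ L ⊆ S ∧ H ⊆ S ∧ L.card + H.card = S.card ∧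
      2 * L.card ≤ S.card + 2 ∧ 2 * H.card ≤ S.card := by
  classical
  let f : ℕ → ℕ := fun k => (S.filter (fun e => lab e < k)).card
  have hex : ∃ k, S.card ≤ 2 * f k := by
    refine ⟨S.sup lab + 1, ?_⟩
    have : S.filter (fun e => lab e < S.sup lab + 1) = S :=
      Finset.filter_true_of_mem (fun e he => Nat.lt_succ_of_le (Finset.le_sup he))
    simp only [f, this]; omega
  obtain ⟨k, hk, hmin⟩ : ∃ k, S.card ≤ 2 * f k ∧ ∀ j < k, 2 * f j < S.card :=
    ⟨Nat.find hex, Nat.find_spec hex, fun j hj => not_le.mp (Nat.find_min hex hj)⟩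
  have hstep : ∀ j, f (j + 1) ≤ f j + 1 := by
    intro j
    have h1 : S.filter (fun e => lab e < j + 1) ⊆
        S.filter (fun e => lab e < j) ∪ S.filter (fun e => lab e = j) := by
      intro e he
      simp only [Finset.mem_union, Finset.mem_filter] at *
      rcases Nat.lt_or_ge (lab e) j with h | h
      · exact Or.inl ⟨he.1, h⟩
      · exact Or.inr ⟨he.1, by omega⟩
    have h2 : (S.filter (fun e => lab e = j)).card ≤ 1 := by
      rw [Finset.card_le_one]
      intro a ha b hb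
      simp only [Finset.mem_filter] at ha hb
      exact hinj ha.1 hb.1 (ha.2.trans hb.2.symm)
    have h3 := Finset.card_le_card h1
    have h4 := Finset.card_union_le (S.filter (fun e => lab e < j)) (S.filter (fun e => lab e = j))
    simp only [f]; omega
  have hcard : (S.filter (fun e => lab e < k)).card + (S.filter (fun e => ¬ lab e < k)).card =
      S.card := Finset.card_filter_add_card_filter_not _
  have hfk : 2 * f k ≤ S.card + 2 := by
    rcases Nat.eq_zero_or_pos k with h | h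
    · subst h
      have : f 0 = 0 := by simp [f]
      omega
    · obtain ⟨j, rfl⟩ : ∃ j, k = j + 1 := ⟨k - 1, by omega⟩
      have h1 := hmin j (by omega)
      have h2 := hstep j
      omega
  refine ⟨S.filter (fun e => lab e < k), S.filter (fun e => ¬ lab e < k), ⟨?_, ?_⟩,
    Finset.filter_subset _ _, Finset.filter_subset _ _, hcard, hfk, ?_⟩
  · intro e
    simp only [Finset.mem_filter]
    tauto
  · intro e he f hf
    simp only [Finset.mem_filter, not_lt] at he hf
    omega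
  · simp only [f] at hk
    omega

omit [DecidableEq α] in
lemma cs2 (X : Finset α) (s : α → α → ℝ) :
    (∑ a ∈ X, ∑ a' ∈ X, s a a') ^ 2 ≤ (X.card : ℝ) ^ 2 * ∑ a ∈ X, ∑ a' ∈ X, (s a a') ^ 2 := by
  have h := sq_sum_le_card_mul_sum_sq (s := X ×ˢ X) (f := fun p => s p.1 p.2)
  rw [Finset.sum_product, Finset.sum_product, Finset.card_product] at h
  push_cast at h
  calc _ ≤ _ := h
    _ = _ := by ring

lemma sum_strA (L H : Finset (α × β)) (X : Finset α) (Y : Finset β) :
    ∑ a ∈ X, ∑ a' ∈ X, ∑ b ∈ Y, strA L H a a' b =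
      2 * ∑ b ∈ Y, (∑ a ∈ X, ind L a b) * (∑ a ∈ X, ind H a b) := by
  have h1 : ∑ a ∈ X, ∑ a' ∈ X, ∑ b ∈ Y, strA L H a a' b =
      ∑ b ∈ Y, ∑ a ∈ X, ∑ a' ∈ X, strA L H a a' b := by
    have : ∀ a ∈ X, ∑ a' ∈ X, ∑ b ∈ Y, strA L H a a' b = ∑ b ∈ Y, ∑ a' ∈ X, strA L H a a' b :=
      fun a _ => Finset.sum_comm
    rw [Finset.sum_congr rfl this, Finset.sum_comm]
  rw [h1, Finset.mul_sum]
  refine Finset.sum_congr rfl fun b _ => ?_
  unfold strA
  simp only [Finset.sum_add_distrib]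
  rw [← Finset.sum_mul_sum, ← Finset.sum_mul_sum]
  ring

lemma sum_strB (L H : Finset (α × β)) (X : Finset α) (Y : Finset β) :
    ∑ b ∈ Y, ∑ b' ∈ Y, ∑ a ∈ X, strB L H b b' a =
      2 * ∑ a ∈ X, (∑ b ∈ Y, ind L a b) * (∑ b ∈ Y, ind H a b) := by
  have h1 : ∑ b ∈ Y, ∑ b' ∈ Y, ∑ a ∈ X, strB L H b b' a =
      ∑ a ∈ X, ∑ b ∈ Y, ∑ b' ∈ Y, strB L H b b' a := by
    have : ∀ b ∈ Y, ∑ b' ∈ Y, ∑ a ∈ X, strB L H b b' a = ∑ a ∈ X, ∑ b' ∈ Y, strB L H b b' a :=
      fun a _ => Finset.sum_comm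
    rw [Finset.sum_congr rfl this, Finset.sum_comm]
  rw [h1, Finset.mul_sum]
  refine Finset.sum_congr rfl fun b _ => ?_
  unfold strB
  simp only [Finset.sum_add_distrib]
  rw [← Finset.sum_mul_sum, ← Finset.sum_mul_sum]
  ring

lemma min_cs {ι : Type*} (Y : Finset ι) (l u : ι → ℝ) (hl : ∀ b, 0 ≤ l b) (hu : ∀ b, 0 ≤ u b) :
    (∑ b ∈ Y, min (l b) (u b)) ^ 2 ≤ Y.card * ∑ b ∈ Y, l b * u b := by
  have h := sq_sum_le_card_mul_sum_sq (s := Y) (f := fun b => min (l b) (u b))
  refine h.trans (mul_le_mul_of_nonneg_left ?_ (Nat.cast_nonneg _))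
  refine Finset.sum_le_sum fun b _ => ?_
  have h1 : min (l b) (u b) ≤ l b := min_le_left _ _
  have h2 : min (l b) (u b) ≤ u b := min_le_right _ _
  have h3 : 0 ≤ min (l b) (u b) := le_min (hl b) (hu b)
  rw [sq]
  exact mul_le_mul h1 h2 h3 (hl b)

/-- the number of edges of `S` whose first end lies in `P` -/
lemma card_fst {S : Finset (α × β)} {X P : Finset α} {Y : Finset β} (h : S ⊆ X ×ˢ Y) (hP : P ⊆ X) :
    ((S.filter (fun e => e.1 ∈ P)).card : ℝ) = ∑ a ∈ P, ∑ b ∈ Y, ind S a b := by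
  have h1 : S.filter (fun e => e.1 ∈ P) ⊆ P ×ˢ Y := by
    intro e he
    simp only [Finset.mem_filter] at he
    exact Finset.mem_product.mpr ⟨he.2, (Finset.mem_product.mp (h he.1)).2⟩
  rw [card_eq_sum h1]
  refine Finset.sum_congr rfl fun a ha => Finset.sum_congr rfl fun b _ => ?_
  unfold ind
  simp [ha]

/-- the number of edges of `S` whose second end lies in `Q` -/
lemma card_snd {S : Finset (α × β)} {X : Finset α} {Y Q : Finset β} (h : S ⊆ X ×ˢ Y) (hQ : Q ⊆ Y) :
    ((S.filter (fun e => e.2 ∈ Q)).card : ℝ) = ∑ b ∈ Q, ∑ a ∈ X, ind S a b := by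
  have h1 : S.filter (fun e => e.2 ∈ Q) ⊆ X ×ˢ Q := by
    intro e he
    simp only [Finset.mem_filter] at he
    exact Finset.mem_product.mpr ⟨(Finset.mem_product.mp (h he.1)).1, he.2⟩
  rw [card_eq_sum h1, Finset.sum_comm]
  refine Finset.sum_congr rfl fun b hb => Finset.sum_congr rfl fun a _ => ?_
  unfold ind
  simp [hb]

lemma ind_mono {S T : Finset (α × β)} (h : S ⊆ T) (a : α) (b : β) : ind S a b ≤ ind T a b := by
  unfold ind
  by_cases h1 : (a, b) ∈ S
  · simp [h1, h h1]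
  · simp only [h1, if_false]; split_ifs <;> norm_num

lemma step (lab : α × β → ℕ) (X : Finset α) (Y : Finset β) (E : Finset (α × β))
    (hE : E ⊆ X ×ˢ Y) (hinj : Set.InjOn lab E) (hNF : NF lab E)
    (IH : ∀ X' Y' E', X'.card + Y'.card < X.card + Y.card → E' ⊆ X' ×ˢ Y' → E' ⊆ E →
      (E'.card : ℝ) ≤ 200000 * Fn X'.card Y'.card) :
    (E.card : ℝ) ≤ 200000 * Fn X.card Y.card := by
  by_contra hcon
  push Not at hcon
  set m : ℝ := (E.card : ℝ) with hm
  have hEne : E.Nonempty := by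
    rw [← Finset.card_pos]
    have : (0 : ℝ) < E.card := lt_of_le_of_lt (mul_nonneg (by norm_num)
      (Fn_nonneg (Nat.cast_nonneg _) (Nat.cast_nonneg _))) hcon
    exact_mod_cast this
  obtain ⟨e0, he0⟩ := hEne
  have hXne : X.Nonempty := ⟨e0.1, (Finset.mem_product.mp (hE he0)).1⟩
  have hYne : Y.Nonempty := ⟨e0.2, (Finset.mem_product.mp (hE he0)).2⟩
  set x : ℝ := (X.card : ℝ) with hx
  set y : ℝ := (Y.card : ℝ) with hy
  have hx1 : 1 ≤ x := by rw [hx]; exact_mod_cast hXne.card_pos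
  have hy1 : 1 ≤ y := by rw [hy]; exact_mod_cast hYne.card_pos
  have hx0 : 0 < x := by linarith
  have hy0 : 0 < y := by linarith
  have hF1 : 2 ≤ Fn x y := by
    unfold Fn
    have h1 : 1 ≤ √y := Real.one_le_sqrt.mpr hy1
    have h2 : 1 ≤ √x := Real.one_le_sqrt.mpr hx1
    nlinarith
  have hm0 : 400000 < m := by linarith
  -- heavy vertices
  have sumY : ∑ b ∈ Y, ∑ a ∈ X, ind E a b = m := by
    rw [hm, card_eq_sum hE, Finset.sum_comm]
  have sumX : ∑ a ∈ X, ∑ b ∈ Y, ind E a b = m := by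
    rw [hm, card_eq_sum hE]
  set HY := Y.filter (fun b => 200 * m / y < ∑ a ∈ X, ind E a b) with hHY
  set HX := X.filter (fun a => 200 * m / x < ∑ b ∈ Y, ind E a b) with hHX
  have bY : ∑ b ∈ HY, ∑ a ∈ X, ind E a b ≤ m / 200 := by
    refine heavy_sum Y (fun b => ∑ a ∈ X, ind E a b) (C := 200000) (x := x) (by norm_num)
      (by norm_num) hx0 sumY hYne hcon ?_
    intro H hH
    rw [← card_snd hE hH.subset]
    refine IH X H _ ?_ ?_ (Finset.filter_subset _ _)
    · have := Finset.card_lt_card hH; omega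
    · intro e he
      simp only [Finset.mem_filter] at he
      exact Finset.mem_product.mpr ⟨(Finset.mem_product.mp (hE he.1)).1, he.2⟩
  have bX : ∑ a ∈ HX, ∑ b ∈ Y, ind E a b ≤ m / 200 := by
    refine heavy_sum X (fun a => ∑ b ∈ Y, ind E a b) (C := 200000) (x := y) (by norm_num)
      (by norm_num) hy0 sumX hXne (by rw [Fn_comm]; exact hcon) ?_
    intro H hH
    rw [← card_fst hE hH.subset, Fn_comm]
    refine IH H Y _ ?_ ?_ (Finset.filter_subset _ _)
    · have := Finset.card_lt_card hH; omega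
    · intro e he
      simp only [Finset.mem_filter] at he
      exact Finset.mem_product.mpr ⟨he.2, (Finset.mem_product.mp (hE he.1)).2⟩
  have hHYs : HY ⊆ Y := Finset.filter_subset _ _
  have hHXs : HX ⊆ X := Finset.filter_subset _ _
  set E1 := E.filter (fun e => e.1 ∉ HX ∧ e.2 ∉ HY) with hE1
  have hE1s : E1 ⊆ E := Finset.filter_subset _ _
  have cE1 : m - m / 100 ≤ E1.card := by
    have h1 : E ⊆ E1 ∪ (E.filter (fun e => e.1 ∈ HX) ∪ E.filter (fun e => e.2 ∈ HY)) := by
      intro e he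
      simp only [Finset.mem_union, hE1, Finset.mem_filter]
      tauto
    have h2 := Finset.card_le_card h1
    have h3 := Finset.card_union_le E1 (E.filter (fun e => e.1 ∈ HX) ∪ E.filter (fun e => e.2 ∈ HY))
    have h4 := Finset.card_union_le (E.filter (fun e => e.1 ∈ HX)) (E.filter (fun e => e.2 ∈ HY))
    have h5 : E.card ≤ E1.card + ((E.filter (fun e => e.1 ∈ HX)).card +
      (E.filter (fun e => e.2 ∈ HY)).card) := by omega
    have h6 : m ≤ E1.card + (((E.filter (fun e => e.1 ∈ HX)).card : ℝ) +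
      ((E.filter (fun e => e.2 ∈ HY)).card : ℝ)) := by rw [hm]; exact_mod_cast h5
    rw [card_fst hE hHXs, card_snd hE hHYs] at h6
    linarith
  have cE1' : (E1.card : ℝ) ≤ m := by rw [hm]; exact_mod_cast Finset.card_le_card hE1s
  have hE1P : E1 ⊆ X ×ˢ Y := hE1s.trans hE
  -- the degrees in `E1`
  have dA : ∀ a ∈ X, ∑ b ∈ Y, ind E1 a b ≤ 200 * m / x := by
    intro a ha
    by_cases h : a ∈ HX
    · have : ∑ b ∈ Y, ind E1 a b = 0 := by
        refine Finset.sum_eq_zero fun b _ => ?_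
        unfold ind
        rw [if_neg]
        rw [hE1, Finset.mem_filter]
        tauto
      rw [this]; positivity
    · have h1 : ∑ b ∈ Y, ind E a b ≤ 200 * m / x := by
        by_contra h2
        exact h (by rw [hHX, Finset.mem_filter]; exact ⟨ha, not_le.mp h2⟩)
      exact (Finset.sum_le_sum fun b _ => ind_mono hE1s a b).trans h1
  have dB : ∀ b ∈ Y, ∑ a ∈ X, ind E1 a b ≤ 200 * m / y := by
    intro b hb
    by_cases h : b ∈ HY
    · have : ∑ a ∈ X, ind E1 a b = 0 := by
        refine Finset.sum_eq_zero fun a _ => ?_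
        unfold ind
        rw [if_neg]
        rw [hE1, Finset.mem_filter]
        tauto
      rw [this]; positivity
    · have h1 : ∑ a ∈ X, ind E a b ≤ 200 * m / y := by
        by_contra h2
        exact h (by rw [hHY, Finset.mem_filter]; exact ⟨hb, not_le.mp h2⟩)
      exact (Finset.sum_le_sum fun a _ => ind_mono hE1s a b).trans h1
  have hD : Dg E1 X Y ≤ 200 * m / x * m + 200 * m / y * m := by
    unfold Dg
    have h1 : ∑ a ∈ X, (∑ b ∈ Y, ind E1 a b) ^ 2 ≤ 200 * m / x * m := by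
      calc ∑ a ∈ X, (∑ b ∈ Y, ind E1 a b) ^ 2 ≤ ∑ a ∈ X, 200 * m / x * (∑ b ∈ Y, ind E1 a b) := by
            refine Finset.sum_le_sum fun a ha => ?_
            rw [sq]
            exact mul_le_mul_of_nonneg_right (dA a ha)
              (Finset.sum_nonneg fun b _ => ind_nonneg _ _ _)
        _ = 200 * m / x * E1.card := by rw [← Finset.mul_sum, card_eq_sum hE1P]
        _ ≤ _ := mul_le_mul_of_nonneg_left cE1' (by positivity)
    have h2 : ∑ b ∈ Y, (∑ a ∈ X, ind E1 a b) ^ 2 ≤ 200 * m / y * m := by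
      calc ∑ b ∈ Y, (∑ a ∈ X, ind E1 a b) ^ 2 ≤ ∑ b ∈ Y, 200 * m / y * (∑ a ∈ X, ind E1 a b) := by
            refine Finset.sum_le_sum fun b hb => ?_
            rw [sq]
            exact mul_le_mul_of_nonneg_right (dB b hb)
              (Finset.sum_nonneg fun a _ => ind_nonneg _ _ _)
        _ = 200 * m / y * E1.card := by
            rw [← Finset.mul_sum, card_eq_sum hE1P, Finset.sum_comm]
        _ ≤ _ := mul_le_mul_of_nonneg_left cE1' (by positivity)
    linarith
  -- the median split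
  obtain ⟨L, H, hs, hL, hH, hcard, hLc, hHc⟩ :=
    exists_split lab E1 (hinj.mono (by exact_mod_cast hE1s))
  have hL2 := lemma2 lab hs (hinj.mono (by exact_mod_cast hE1s)) (hNF.mono hE1s) X Y
  set lX : α → ℝ := fun a => ∑ b ∈ Y, ind L a b with hlX
  set uX : α → ℝ := fun a => ∑ b ∈ Y, ind H a b with huX
  set lY : β → ℝ := fun b => ∑ a ∈ X, ind L a b with hlY
  set uY : β → ℝ := fun b => ∑ a ∈ X, ind H a b with huY
  have nlX : ∀ a, 0 ≤ lX a := fun a => Finset.sum_nonneg fun b _ => ind_nonneg _ _ _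
  have nuX : ∀ a, 0 ≤ uX a := fun a => Finset.sum_nonneg fun b _ => ind_nonneg _ _ _
  have nlY : ∀ b, 0 ≤ lY b := fun b => Finset.sum_nonneg fun a _ => ind_nonneg _ _ _
  have nuY : ∀ b, 0 ≤ uY b := fun b => Finset.sum_nonneg fun a _ => ind_nonneg _ _ _
  have WY : ∑ b ∈ Y, min (lY b) (uY b) ≤ m / 100 := by
    refine minority_real (x := x) (y := y) (K := ∑ b ∈ Y, lY b * uY b) (D := Dg E1 X Y)
      hx0 hy0 (Finset.sum_nonneg fun b _ => le_min (nlY b) (nuY b))
      (Finset.sum_nonneg fun b _ => mul_nonneg (nlY b) (nuY b)) hcon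
      (min_cs Y lY uY nlY nuY) ?_ hD
    rw [← sum_strA]
    refine (cs2 X _).trans ?_
    have h1 : ∑ a ∈ X, ∑ a' ∈ X, (∑ b ∈ Y, strA L H a a' b) ^ 2 ≤ 6 * Dg E1 X Y := by
      have : 0 ≤ ∑ b ∈ Y, ∑ b' ∈ Y, (∑ a ∈ X, strB L H b b' a) ^ 2 :=
        Finset.sum_nonneg fun b _ => Finset.sum_nonneg fun b' _ => sq_nonneg _
      linarith
    calc _ ≤ x ^ 2 * (6 * Dg E1 X Y) := mul_le_mul_of_nonneg_left h1 (by positivity)
      _ = _ := by ring
  have WX : ∑ a ∈ X, min (lX a) (uX a) ≤ m / 100 := by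
    refine minority_real (x := y) (y := x) (K := ∑ a ∈ X, lX a * uX a) (D := Dg E1 X Y)
      hy0 hx0 (Finset.sum_nonneg fun b _ => le_min (nlX b) (nuX b))
      (Finset.sum_nonneg fun b _ => mul_nonneg (nlX b) (nuX b)) (by rw [Fn_comm]; exact hcon)
      (min_cs X lX uX nlX nuX) ?_ (by linarith)
    rw [← sum_strB]
    refine (cs2 Y _).trans ?_
    have h1 : ∑ b ∈ Y, ∑ b' ∈ Y, (∑ a ∈ X, strB L H b b' a) ^ 2 ≤ 6 * Dg E1 X Y := by
      have : 0 ≤ ∑ a ∈ X, ∑ a' ∈ X, (∑ b ∈ Y, strA L H a a' b) ^ 2 :=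
        Finset.sum_nonneg fun b _ => Finset.sum_nonneg fun b' _ => sq_nonneg _
      linarith
    calc _ ≤ y ^ 2 * (6 * Dg E1 X Y) := mul_le_mul_of_nonneg_left h1 (by positivity)
      _ = _ := by ring
  -- majority classes
  set Xl := X.filter (fun a => uX a ≤ lX a) with hXl
  set Xu := X.filter (fun a => ¬ uX a ≤ lX a) with hXu
  set Yl := Y.filter (fun b => uY b ≤ lY b) with hYl
  set Yu := Y.filter (fun b => ¬ uY b ≤ lY b) with hYu
  have cX : Xl.card + Xu.card = X.card := Finset.card_filter_add_card_filter_not _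
  have cY : Yl.card + Yu.card = Y.card := Finset.card_filter_add_card_filter_not _
  have hXls : Xl ⊆ X := Finset.filter_subset _ _
  have hXus : Xu ⊆ X := Finset.filter_subset _ _
  have hYls : Yl ⊆ Y := Finset.filter_subset _ _
  have hYus : Yu ⊆ Y := Finset.filter_subset _ _
  set El := L.filter (fun e => e.1 ∈ Xl ∧ e.2 ∈ Yl) with hEl
  set Eu := H.filter (fun e => e.1 ∈ Xu ∧ e.2 ∈ Yu) with hEu
  have hLP : L ⊆ X ×ˢ Y := hL.trans hE1P
  have hHP : H ⊆ X ×ˢ Y := hH.trans hE1P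
  have cL : (L.card : ℝ) ≤ El.card + (∑ a ∈ Xu, lX a + ∑ b ∈ Yu, lY b) := by
    have h1 : L ⊆ El ∪ (L.filter (fun e => e.1 ∈ Xu) ∪ L.filter (fun e => e.2 ∈ Yu)) := by
      intro e he
      have hp := Finset.mem_product.mp (hLP he)
      simp only [Finset.mem_union, hEl, hXl, hYl, hXu, hYu, Finset.mem_filter]
      tauto
    have h2 := Finset.card_le_card h1
    have h3 := Finset.card_union_le El (L.filter (fun e => e.1 ∈ Xu) ∪ L.filter (fun e => e.2 ∈ Yu))
    have h4 := Finset.card_union_le (L.filter (fun e => e.1 ∈ Xu)) (L.filter (fun e => e.2 ∈ Yu))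
    have h5 : L.card ≤ El.card + ((L.filter (fun e => e.1 ∈ Xu)).card +
      (L.filter (fun e => e.2 ∈ Yu)).card) := by omega
    have h6 : (L.card : ℝ) ≤ El.card + (((L.filter (fun e => e.1 ∈ Xu)).card : ℝ) +
      ((L.filter (fun e => e.2 ∈ Yu)).card : ℝ)) := by exact_mod_cast h5
    rw [card_fst hLP hXus, card_snd hLP hYus] at h6
    exact h6
  have cH : (H.card : ℝ) ≤ Eu.card + (∑ a ∈ Xl, uX a + ∑ b ∈ Yl, uY b) := by
    have h1 : H ⊆ Eu ∪ (H.filter (fun e => e.1 ∈ Xl) ∪ H.filter (fun e => e.2 ∈ Yl)) := by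
      intro e he
      have hp := Finset.mem_product.mp (hHP he)
      simp only [Finset.mem_union, hEu, hXl, hYl, hXu, hYu, Finset.mem_filter]
      tauto
    have h2 := Finset.card_le_card h1
    have h3 := Finset.card_union_le Eu (H.filter (fun e => e.1 ∈ Xl) ∪ H.filter (fun e => e.2 ∈ Yl))
    have h4 := Finset.card_union_le (H.filter (fun e => e.1 ∈ Xl)) (H.filter (fun e => e.2 ∈ Yl))
    have h5 : H.card ≤ Eu.card + ((H.filter (fun e => e.1 ∈ Xl)).card +
      (H.filter (fun e => e.2 ∈ Yl)).card) := by omega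
    have h6 : (H.card : ℝ) ≤ Eu.card + (((H.filter (fun e => e.1 ∈ Xl)).card : ℝ) +
      ((H.filter (fun e => e.2 ∈ Yl)).card : ℝ)) := by exact_mod_cast h5
    rw [card_fst hHP hXls, card_snd hHP hYls] at h6
    exact h6
  have sX : ∑ a ∈ Xu, lX a + ∑ a ∈ Xl, uX a = ∑ a ∈ X, min (lX a) (uX a) := by
    have h1 : ∑ a ∈ Xl, min (lX a) (uX a) + ∑ a ∈ Xu, min (lX a) (uX a) =
        ∑ a ∈ X, min (lX a) (uX a) := Finset.sum_filter_add_sum_filter_not _ _ _
    rw [← h1, add_comm]
    congr 1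
    · refine Finset.sum_congr rfl fun a ha => ?_
      rw [hXl, Finset.mem_filter] at ha
      rw [min_eq_right ha.2]
    · refine Finset.sum_congr rfl fun a ha => ?_
      rw [hXu, Finset.mem_filter, not_le] at ha
      rw [min_eq_left ha.2.le]
  have sY : ∑ b ∈ Yu, lY b + ∑ b ∈ Yl, uY b = ∑ b ∈ Y, min (lY b) (uY b) := by
    have h1 : ∑ b ∈ Yl, min (lY b) (uY b) + ∑ b ∈ Yu, min (lY b) (uY b) =
        ∑ b ∈ Y, min (lY b) (uY b) := Finset.sum_filter_add_sum_filter_not _ _ _
    rw [← h1, add_comm]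
    congr 1
    · refine Finset.sum_congr rfl fun a ha => ?_
      rw [hYl, Finset.mem_filter] at ha
      rw [min_eq_right ha.2]
    · refine Finset.sum_congr rfl fun a ha => ?_
      rw [hYu, Finset.mem_filter, not_le] at ha
      rw [min_eq_left ha.2.le]
  have hcardR : (L.card : ℝ) + H.card = E1.card := by exact_mod_cast hcard
  have hbig : 24 / 25 * m ≤ (El.card : ℝ) + Eu.card := by linarith
  have hEls : El ⊆ L := Finset.filter_subset _ _
  have hEus : Eu ⊆ H := Finset.filter_subset _ _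
  have hElc : (El.card : ℝ) ≤ 51 / 100 * m := by
    have h1 : (El.card : ℝ) ≤ L.card := by exact_mod_cast Finset.card_le_card hEls
    have h2 : 2 * (L.card : ℝ) ≤ E1.card + 2 := by exact_mod_cast hLc
    linarith
  have hEuc : (Eu.card : ℝ) ≤ 51 / 100 * m := by
    have h1 : (Eu.card : ℝ) ≤ H.card := by exact_mod_cast Finset.card_le_card hEus
    have h2 : 2 * (H.card : ℝ) ≤ E1.card := by exact_mod_cast hHc
    linarith
  have hElP : El ⊆ Xl ×ˢ Yl := by
    intro e he
    rw [hEl, Finset.mem_filter] at he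
    exact Finset.mem_product.mpr he.2
  have hEuP : Eu ⊆ Xu ×ˢ Yu := by
    intro e he
    rw [hEu, Finset.mem_filter] at he
    exact Finset.mem_product.mpr he.2
  have cXR : (Xl.card : ℝ) + Xu.card = x := by rw [hx]; exact_mod_cast cX
  have cYR : (Yl.card : ℝ) + Yu.card = y := by rw [hy]; exact_mod_cast cY
  -- the two halves are proper
  have pl : Xl.card + Yl.card < X.card + Y.card := by
    by_contra h
    have h1 : Xu.card = 0 := by omega
    have h2 : Eu.card = 0 := by
      rw [Finset.card_eq_zero] at h1 ⊢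
      rw [h1, Finset.empty_product] at hEuP
      exact Finset.subset_empty.mp hEuP
    have h3 : (Eu.card : ℝ) = 0 := by exact_mod_cast h2
    linarith
  have pu : Xu.card + Yu.card < X.card + Y.card := by
    by_contra h
    have h1 : Xl.card = 0 := by omega
    have h2 : El.card = 0 := by
      rw [Finset.card_eq_zero] at h1 ⊢
      rw [h1, Finset.empty_product] at hElP
      exact Finset.subset_empty.mp hElP
    have h3 : (El.card : ℝ) = 0 := by exact_mod_cast h2
    linarith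
  have il := IH Xl Yl El pl hElP (hEls.trans (hL.trans hE1s))
  have iu := IH Xu Yu Eu pu hEuP (hEus.trans (hH.trans hE1s))
  have q1 : (Xl.card : ℝ) / x * x = Xl.card := by field_simp
  have q2 : (Yl.card : ℝ) / y * y = Yl.card := by field_simp
  have q3 : (1 - (Xl.card : ℝ) / x) * x = Xu.card := by
    rw [sub_mul, q1]; linarith
  have q4 : (1 - (Yl.card : ℝ) / y) * y = Yu.card := by
    rw [sub_mul, q2]; linarith
  have n1 : (0 : ℝ) ≤ Xu.card := Nat.cast_nonneg _
  have n2 : (0 : ℝ) ≤ Yu.card := Nat.cast_nonneg _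
  refine final_real (C := 200000) (x := x) (y := y) (al := Xl.card / x) (be := Yl.card / y)
    (m := m) (ml := El.card) (mu := Eu.card) (by norm_num) hx0 hy0 (by positivity) ?_
    (by positivity) ?_ hcon ?_ ?_ hbig hElc hEuc
  · rw [div_le_one hx0]; linarith
  · rw [div_le_one hy0]; linarith
  · rw [q1, q2]; exact il
  · rw [q3, q4]; exact iu

theorem bip_bound (lab : α × β → ℕ) : ∀ (N : ℕ) (X : Finset α) (Y : Finset β)
    (E : Finset (α × β)), X.card + Y.card = N → E ⊆ X ×ˢ Y → Set.InjOn lab E → NF lab E →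
    (E.card : ℝ) ≤ 200000 * Fn X.card Y.card := by
  intro N
  induction N using Nat.strong_induction_on with
  | _ N ih =>
    intro X Y E hN hE hinj hNF
    refine step lab X Y E hE hinj hNF ?_
    intro X' Y' E' hc hE' hE'E
    exact ih (X'.card + Y'.card) (by omega) X' Y' E' rfl hE'
      (hinj.mono (by exact_mod_cast hE'E)) (hNF.mono hE'E)

end Pool.Agent.Helper84.NestedC4
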