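import Pool.Agent.Helper84.RP2Wiring

set_option autoImplicit false

namespace Pool.Agent.Helper84.Topo

/-- second phase: the second row stays strictly below the first one -/
def ph2 : List ℕ → List ℕ → Bool
  | [], [] => true
  | a :: as, b :: bs => Nat.blt b a && ph2 as bs
  | _, _ => false

/-- first phase -/
def ph1 : List ℕ → List ℕ → Bool
  | [], _ => false
  | a :: as, m => match m with
    | [] => false
    | b :: bs => Nat.blt a b && (ph1 as bs ||
        (match as, bs with
          | a' :: _, b' :: _ => (a + a' == b + b') && ph2 as bs
          | _, _ => false))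

lemma ph2_spec : ∀ (l m : List ℕ), ph2 l m = true →
    l.length = m.length ∧ ∀ t, t < l.length → m.getD t 0 < l.getD t 0
  | [], [], _ => ⟨rfl, fun t ht => absurd ht (by simp)⟩
  | [], _ :: _, h => by simp [ph2] at h
  | _ :: _, [], h => by simp [ph2] at h
  | a :: as, b :: bs, h => by
    simp only [ph2, Bool.and_eq_true, Nat.blt_eq] at h
    obtain ⟨h1, h2⟩ := ph2_spec as bs h.2
    refine ⟨by simp [h1], ?_⟩
    intro t ht
    cases t with
    | zero => simpa using h.1
    | succ t => simpa using h2 t (by simpa using ht)

lemma ph1_spec : ∀ (l m : List ℕ), ph1 l m = true →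
    l.length = m.length ∧ ∃ s, s + 1 < l.length ∧ (∀ t, t ≤ s → l.getD t 0 < m.getD t 0) ∧
      (∀ t, s < t → t < l.length → m.getD t 0 < l.getD t 0) ∧
      l.getD s 0 + l.getD (s + 1) 0 = m.getD s 0 + m.getD (s + 1) 0
  | [], m, h => by simp [ph1] at h
  | _ :: _, [], h => by simp [ph1] at h
  | a :: as, b :: bs, h => by
    simp only [ph1, Bool.and_eq_true, Nat.blt_eq, Bool.or_eq_true] at h
    obtain ⟨hab, h | h⟩ := h
    · obtain ⟨hl, s, h1, h2, h3, h4⟩ := ph1_spec as bs h
      refine ⟨by simp [hl], s + 1, by simpa using h1, ?_, ?_, ?_⟩
      · intro t ht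
        cases t with
        | zero => simpa using hab
        | succ t => simpa using h2 t (by omega)
      · intro t ht1 ht2
        cases t with
        | zero => omega
        | succ t => simpa using h3 t (by omega) (by simpa using ht2)
      · simpa using h4
    · match as, bs, h with
      | a' :: as', b' :: bs', h =>
        simp only [Bool.and_eq_true, beq_iff_eq] at h
        obtain ⟨h1, h2⟩ := h
        obtain ⟨h3, h4⟩ := ph2_spec _ _ h2
        refine ⟨by simpa using h3, 0, by simp, ?_, ?_, ?_⟩
        · intro t ht
          obtain rfl : t = 0 := by omega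
          simpa using hab
        · intro t ht1 ht2
          cases t with
          | zero => omega
          | succ t =>
            have := h4 t (by simpa using ht2)
            simpa using this
        · simpa using h1

/-- all pairs of rows are checked -/
def chkRows : List (List ℕ) → Bool
  | [] => true
  | r :: rs => rs.all (fun m => ph1 r m) && chkRows rs

lemma chkRows_spec : ∀ (rs : List (List ℕ)), chkRows rs = true → ∀ i j, i < j → j < rs.length →
    ph1 (rs.getD i []) (rs.getD j []) = true
  | [], _, i, j, _, hj => absurd hj (by simp)
  | r :: rs, h, i, j, hij, hj => by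
    simp only [chkRows, Bool.and_eq_true, List.all_eq_true] at h
    cases j with
    | zero => omega
    | succ j =>
      have hj' : j < rs.length := by simpa using hj
      cases i with
      | zero =>
        have := h.1 (rs[j]) (List.getElem_mem hj')
        simpa [List.getD_eq_getElem?_getD, hj'] using this
      | succ i =>
        simpa using chkRows_spec rs h.2 i j (by omega) hj'

/-- Realizability from checked data: `rows` are the heights of the wires (in the order of
slopes) at the integer times, `wpos b` is the wire of the element `b`, the marked point number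
`a` is in slot `slot a` with centre `cent a`. -/
theorem realizable_of_data (n T : ℕ) (rows : List (List ℕ)) (wpos slot cent : List ℕ)
    (tab : ℕ → ℕ → Bool)
    (h0 : rows.length = n) (h1 : rows.all (fun r => r.length == T + 1) = true)
    (h2 : chkRows rows = true)
    (h3 : (List.range n).all (fun b => Nat.blt (wpos.getD b 0) n) = true)
    (h4 : (List.range n).all (fun b => (List.range n).all (fun c => b == c ||
      !(wpos.getD b 0 == wpos.getD c 0))) = true)
    (h5 : (List.range n).all (fun a => Nat.blt (slot.getD a 0) T) = true)
    (h6 : (List.range n).all (fun a => (List.range n).all (fun c => a == c ||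
      !(slot.getD a 0 == slot.getD c 0) || !(cent.getD a 0 == cent.getD c 0))) = true)
    (h7 : (List.range n).all (fun a => (List.range n).all (fun b =>
      tab a b == ((rows.getD (wpos.getD b 0) []).getD (slot.getD a 0) 0 +
        (rows.getD (wpos.getD b 0) []).getD (slot.getD a 0 + 1) 0 == cent.getD a 0))) = true) :
    TopologicallyRealizable (fun (a b : Fin n) => tab a b = true) := by
  have hlen : ∀ i, i < n → (rows.getD i []).length = T + 1 := by
    intro i hi
    have := List.all_eq_true.mp h1 (rows.getD i []) (by
      rw [← h0] at hi
      rw [List.getD_eq_getElem?_getD, List.getElem?_eq_getElem hi]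
      simp)
    simpa using this
  have key := wiring (n := n) (A := Fin n) T (fun i t => (rows.getD i []).getD t 0) (by
    intro i j hij
    have hc := chkRows_spec rows h2 i j hij (by rw [h0]; exact j.2)
    obtain ⟨_, s, g1, g2, g3, g4⟩ := ph1_spec _ _ hc
    rw [hlen i i.2] at g1 g3
    exact ⟨s, by omega, g2, fun t ht1 ht2 => g3 t ht1 (by omega), g4⟩)
    (fun a => (slot.getD a 0, cent.getD a 0)) (by
      intro a c hac
      have := List.all_eq_true.mp (List.all_eq_true.mp h6 a (List.mem_range.mpr a.2)) c
        (List.mem_range.mpr c.2)
      rw [Prod.mk.injEq] at hac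
      rw [hac.1, hac.2] at this
      simp only [Bool.or_eq_true, beq_iff_eq, beq_self_eq_true, Bool.not_true,
        Bool.false_eq_true, or_false] at this
      exact Fin.ext this) (by
      intro a
      have := List.all_eq_true.mp h5 a (List.mem_range.mpr a.2)
      simpa using this)
  have hw : ∀ b : Fin n, wpos.getD b 0 < n := by
    intro b
    have := List.all_eq_true.mp h3 b (List.mem_range.mpr b.2)
    simpa using this
  have key2 := key.comap (fun a : Fin n => a) (fun b : Fin n => (⟨wpos.getD b 0, hw b⟩ : Fin n))
    (fun a b h => h) (by
      intro b c hbc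
      have := List.all_eq_true.mp (List.all_eq_true.mp h4 b (List.mem_range.mpr b.2)) c
        (List.mem_range.mpr c.2)
      rw [Fin.mk.injEq] at hbc
      rw [hbc] at this
      simp only [Bool.or_eq_true, beq_iff_eq, beq_self_eq_true, Bool.not_true,
        Bool.false_eq_true, or_false] at this
      exact Fin.ext this)
  have he : (fun (a b : Fin n) => tab a b = true) =
      (fun (a b : Fin n) => (rows.getD (wpos.getD b 0) []).getD (slot.getD a 0) 0 +
        (rows.getD (wpos.getD b 0) []).getD (slot.getD a 0 + 1) 0 = cent.getD a 0) := by
    funext a b
    have := List.all_eq_true.mp (List.all_eq_true.mp h7 a (List.mem_range.mpr a.2)) b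
        (List.mem_range.mpr b.2)
    rw [beq_iff_eq] at this
    rw [this]
    simp
  rw [he]
  exact key2

end Pool.Agent.Helper84.Topo
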