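import Mathlib

/-!
Definitions for topological realizations of point-line configurations in the real
projective plane, and the symplectic quadrangle `W(3)`.
-/

set_option autoImplicit false

open scoped LinearAlgebra.Projectivization

namespace Pool.Agent.Helper84.Topo

/-- The real projective plane: lines through the origin of `ℝ³`. -/
def RP2 : Type := ℙ ℝ (Fin 3 → ℝ)

/-- The point of the real projective plane with homogeneous coordinates `v`. -/
noncomputable def RP2.mk (v : {v : Fin 3 → ℝ // v ≠ 0}) : RP2 :=
  Projectivization.mk ℝ v.1 v.2

/-- The quotient topology coming from `ℝ³ ∖ {0}`. -/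
noncomputable instance : TopologicalSpace RP2 :=
  TopologicalSpace.coinduced RP2.mk inferInstance

/-- A simple closed curve: the image of an injective continuous map from the circle. -/
def IsSimpleClosedCurve (S : Set RP2) : Prop :=
  ∃ γ : Circle → RP2, Continuous γ ∧ Function.Injective γ ∧ Set.range γ = S

/-- A pseudoline: a simple closed curve in the real projective plane whose complement is
connected, that is, which does not separate the plane. -/
def IsPseudoline (S : Set RP2) : Prop :=
  IsSimpleClosedCurve S ∧ IsConnected Sᶜ

/-- Two curves cross at `x` if in suitable local coordinates around `x` they are the two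
coordinate axes. -/
def CrossAt (S T : Set RP2) (x : RP2) : Prop :=
  ∃ φ : OpenPartialHomeomorph RP2 (ℝ × ℝ), x ∈ φ.source ∧ φ x = (0, 0) ∧
    ∀ y ∈ φ.source, (y ∈ S ↔ (φ y).1 = 0) ∧ (y ∈ T ↔ (φ y).2 = 0)

/-- An arrangement of pseudolines: all members are pseudolines and any two distinct members
meet in exactly one point, where they cross. -/
def IsArrangement {B : Type*} (L : B → Set RP2) : Prop :=
  (∀ b, IsPseudoline (L b)) ∧
    ∀ b c, b ≠ c → ∃ x, L b ∩ L c = {x} ∧ CrossAt (L b) (L c) x

/-- A topological realization of an incidence structure with points `A`, lines `B` and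
incidence relation `I`: points go injectively to points of the real projective plane, lines go
injectively to pseudolines forming an arrangement, and a point lies on a pseudoline exactly
when the two are incident. -/
def TopologicallyRealizable {A B : Type*} (I : A → B → Prop) : Prop :=
  ∃ (P : A → RP2) (L : B → Set RP2), Function.Injective P ∧ Function.Injective L ∧
    IsArrangement L ∧ ∀ a b, P a ∈ L b ↔ I a b

/-- The standard symplectic form on `𝔽₃⁴`. -/
def symp (u v : Fin 4 → ZMod 3) : ZMod 3 :=
  u 0 * v 1 - u 1 * v 0 + (u 2 * v 3 - u 3 * v 2)

/-- The points of the symplectic quadrangle `W(3)`: all points of `PG(3,3)`. -/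
def W3Point : Type := ℙ (ZMod 3) (Fin 4 → ZMod 3)

/-- The lines of the symplectic quadrangle `W(3)`: the lines of `PG(3,3)` that are totally
isotropic for the standard symplectic form. -/
def W3Line : Type :=
  {W : Submodule (ZMod 3) (Fin 4 → ZMod 3) //
    Module.finrank (ZMod 3) W = 2 ∧ ∀ u ∈ W, ∀ v ∈ W, symp u v = 0}

/-- Incidence of the symplectic quadrangle `W(3)`. -/
def W3Inc (p : W3Point) (l : W3Line) : Prop :=
  Projectivization.submodule p ≤ l.1

end Pool.Agent.Helper84.Topo
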