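import Pool.Agent.Helper84.RP2Defs

set_option autoImplicit false

open scoped LinearAlgebra.Projectivization

namespace Pool.Agent.Helper84.Topo

/-- point from three coordinates -/
noncomputable def pt (x y z : ℝ) (h : (![x, y, z] : Fin 3 → ℝ) ≠ 0) : RP2 := RP2.mk ⟨![x, y, z], h⟩

lemma vec_ne_zero_iff (x y z : ℝ) : (![x, y, z] : Fin 3 → ℝ) ≠ 0 ↔ ¬ (x = 0 ∧ y = 0 ∧ z = 0) := by
  constructor
  · rintro h ⟨rfl, rfl, rfl⟩
    apply h; ext i; fin_cases i <;> rfl
  · intro h h0
    exact h ⟨congrFun h0 0, congrFun h0 1, congrFun h0 2⟩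

lemma pt_eq_iff {x y z x' y' z' : ℝ} (h : (![x, y, z] : Fin 3 → ℝ) ≠ 0)
    (h' : (![x', y', z'] : Fin 3 → ℝ) ≠ 0) :
    pt x y z h = pt x' y' z' h' ↔ ∃ c : ℝ, c * x' = x ∧ c * y' = y ∧ c * z' = z := by
  refine (Projectivization.mk_eq_mk_iff' ℝ (![x, y, z]) (![x', y', z']) h h').trans ?_
  constructor
  · rintro ⟨a, ha⟩
    exact ⟨a, by simpa using congrFun ha 0, by simpa using congrFun ha 1,
      by simpa using congrFun ha 2⟩
  · rintro ⟨a, h0, h1, h2⟩
    refine ⟨a, ?_⟩
    ext i; fin_cases i <;> simp [h0, h1, h2]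

lemma continuous_mk : Continuous RP2.mk := continuous_coinduced_rng

lemma continuous_pt {X : Type*} [TopologicalSpace X] {f g k : X → ℝ} (hf : Continuous f)
    (hg : Continuous g) (hk : Continuous k) (h : ∀ x, (![f x, g x, k x] : Fin 3 → ℝ) ≠ 0) :
    Continuous (fun x => pt (f x) (g x) (k x) (h x)) := by
  unfold pt
  apply continuous_mk.comp
  apply Continuous.subtype_mk
  apply continuous_pi
  intro i
  fin_cases i <;> simpa

lemma exists_pt (p : RP2) : ∃ x y z h, p = pt x y z h := by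
  obtain ⟨v, hv⟩ : ∃ v : {v : Fin 3 → ℝ // v ≠ 0}, RP2.mk v = p := by
    refine ⟨⟨Projectivization.rep p, Projectivization.rep_nonzero p⟩, ?_⟩
    exact Projectivization.mk_rep p
  have e : (![v.1 0, v.1 1, v.1 2] : Fin 3 → ℝ) = v.1 := by
    ext i; fin_cases i <;> rfl
  refine ⟨v.1 0, v.1 1, v.1 2, by rw [e]; exact v.2, ?_⟩
  rw [← hv]
  unfold pt
  congr 1
  exact Subtype.ext e.symm

/-- affine chart -/
noncomputable def aff (q : ℝ × ℝ) : RP2 := pt q.1 q.2 1 (by rw [vec_ne_zero_iff]; simp)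

/-- point at infinity with slope `a` -/
noncomputable def infp (a : ℝ) : RP2 := pt 1 a 0 (by rw [vec_ne_zero_iff]; simp)

/-- vertical point at infinity -/
noncomputable def vinf : RP2 := pt 0 1 0 (by rw [vec_ne_zero_iff]; simp)

lemma aff_inj {p q : ℝ × ℝ} (h : aff p = aff q) : p = q := by
  unfold aff at h
  rw [pt_eq_iff] at h
  obtain ⟨c, h0, h1, h2⟩ := h
  have : c = 1 := by simpa using h2
  subst this
  ext <;> linarith

lemma aff_ne_infp (p : ℝ × ℝ) (a : ℝ) : aff p ≠ infp a := by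
  unfold aff infp
  rw [Ne, pt_eq_iff]
  rintro ⟨c, _, _, h2⟩
  simp at h2

lemma aff_ne_vinf (p : ℝ × ℝ) : aff p ≠ vinf := by
  unfold aff vinf
  rw [Ne, pt_eq_iff]
  rintro ⟨c, _, _, h2⟩
  simp at h2

lemma infp_ne_vinf (a : ℝ) : infp a ≠ vinf := by
  unfold infp vinf
  rw [Ne, pt_eq_iff]
  rintro ⟨c, h0, _, _⟩
  simp at h0

lemma infp_inj {a b : ℝ} (h : infp a = infp b) : a = b := by
  unfold infp at h
  rw [pt_eq_iff] at h
  obtain ⟨c, h0, h1, _⟩ := h
  have : c = 1 := by simpa using h0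
  subst this
  linarith

/-- every point is affine, at infinity with finite slope, or the vertical point at infinity -/
lemma cases_pt (p : RP2) : (∃ q, p = aff q) ∨ (∃ a, p = infp a) ∨ p = vinf := by
  obtain ⟨x, y, z, h, rfl⟩ := exists_pt p
  by_cases hz : z = 0
  · right
    subst hz
    by_cases hx : x = 0
    · right
      subst hx
      unfold vinf
      rw [pt_eq_iff]
      exact ⟨y, by simp⟩
    · left
      refine ⟨y / x, ?_⟩
      unfold infp
      rw [pt_eq_iff]
      exact ⟨x, by simp, by field_simp, by simp⟩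
  · left
    refine ⟨(x / z, y / z), ?_⟩
    unfold aff
    rw [pt_eq_iff]
    exact ⟨z, by field_simp, by field_simp, by simp⟩

lemma continuous_aff : Continuous aff := by
  unfold aff
  exact continuous_pt continuous_fst continuous_snd continuous_const _

lemma isOpen_iff (U : Set RP2) : IsOpen U ↔ IsOpen (RP2.mk ⁻¹' U) := isOpen_coinduced

lemma mk_mem_aff_image (U : Set (ℝ × ℝ)) (v : {v : Fin 3 → ℝ // v ≠ 0}) :
    RP2.mk v ∈ aff '' U ↔ v.1 2 ≠ 0 ∧ (v.1 0 / v.1 2, v.1 1 / v.1 2) ∈ U := by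
  have e : (![v.1 0, v.1 1, v.1 2] : Fin 3 → ℝ) = v.1 := by
    ext i; fin_cases i <;> rfl
  have hv : RP2.mk v = pt (v.1 0) (v.1 1) (v.1 2) (by rw [e]; exact v.2) := by
    unfold pt
    congr 1
    exact Subtype.ext e.symm
  rw [hv]
  constructor
  · rintro ⟨q, hq, h⟩
    unfold aff at h
    rw [pt_eq_iff] at h
    obtain ⟨c, h0, h1, h2⟩ := h
    have hz : v.1 2 ≠ 0 := by
      intro hz
      rw [hz] at h2
      simp at h2
    refine ⟨hz, ?_⟩
    have hc : c = 1 / v.1 2 := by field_simp; linarith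
    subst hc
    have e0 : v.1 0 / v.1 2 = q.1 := by rw [← h0]; ring
    have e1 : v.1 1 / v.1 2 = q.2 := by rw [← h1]; ring
    rw [e0, e1]
    exact hq
  · rintro ⟨hz, hq⟩
    refine ⟨_, hq, ?_⟩
    unfold aff
    rw [pt_eq_iff]
    refine ⟨1 / v.1 2, ?_, ?_, ?_⟩
    · ring
    · ring
    · field_simp

lemma isOpenEmbedding_aff : Topology.IsOpenEmbedding aff := by
  apply Topology.IsOpenEmbedding.of_continuous_injective_isOpenMap continuous_aff
    (fun p q h => aff_inj h)
  intro U hU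
  rw [isOpen_iff]
  have : RP2.mk ⁻¹' (aff '' U) = {v : {v : Fin 3 → ℝ // v ≠ 0} | v.1 2 ≠ 0} ∩
      (fun v : {v : Fin 3 → ℝ // v ≠ 0} => (v.1 0 / v.1 2, v.1 1 / v.1 2)) ⁻¹' U := by
    ext v
    exact mk_mem_aff_image U v
  rw [this]
  have h2 : Continuous (fun v : {v : Fin 3 → ℝ // v ≠ 0} => v.1 2) :=
    (continuous_apply 2).comp continuous_subtype_val
  have h0 : Continuous (fun v : {v : Fin 3 → ℝ // v ≠ 0} => v.1 0) :=
    (continuous_apply 0).comp continuous_subtype_val
  have h1 : Continuous (fun v : {v : Fin 3 → ℝ // v ≠ 0} => v.1 1) :=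
    (continuous_apply 1).comp continuous_subtype_val
  apply ContinuousOn.isOpen_inter_preimage _ (isOpen_ne_fun h2 continuous_const) hU
  apply ContinuousOn.prodMk
  · exact h0.continuousOn.div h2.continuousOn (fun v hv => hv)
  · exact h1.continuousOn.div h2.continuousOn (fun v hv => hv)

/-- the pseudoline with asymptotic slope `a` and graph `y = a x + b x` -/
def psl (a : ℝ) (b : ℝ → ℝ) : Set RP2 := {p | (∃ x, p = aff (x, a * x + b x)) ∨ p = infp a}

lemma aff_mem_psl {a : ℝ} {b : ℝ → ℝ} {x y : ℝ} : aff (x, y) ∈ psl a b ↔ y = a * x + b x := by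
  constructor
  · rintro (⟨x', h⟩ | h)
    · have := aff_inj h
      rw [Prod.mk.injEq] at this
      obtain ⟨rfl, rfl⟩ := this
      rfl
    · exact absurd h (aff_ne_infp _ _)
  · intro h
    left
    exact ⟨x, by rw [h]⟩

lemma infp_mem_psl {a c : ℝ} {b : ℝ → ℝ} : infp c ∈ psl a b ↔ c = a := by
  constructor
  · rintro (⟨x', h⟩ | h)
    · exact absurd h.symm (aff_ne_infp _ _)
    · exact infp_inj h
  · rintro rfl
    right; rfl

lemma vinf_not_mem_psl {a : ℝ} {b : ℝ → ℝ} : vinf ∉ psl a b := by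
  rintro (⟨x', h⟩ | h)
  · exact aff_ne_vinf _ h.symm
  · exact infp_ne_vinf _ h.symm

/-- the complement of such a curve is connected -/
lemma compl_connected (a : ℝ) (b : ℝ → ℝ) : IsConnected (psl a b)ᶜ := by
  -- family of curves through `vinf`
  let c : Option ℝ → ℝ → RP2 := fun o s => match o with
    | none => pt s (1 + s * a) 0 (by
        rw [vec_ne_zero_iff]; rintro ⟨h0, h1, _⟩; subst h0; simp at h1)
    | some x => pt (s * x) (1 + s * (a * x + b x)) s (by
        rw [vec_ne_zero_iff]; rintro ⟨_, h1, h0⟩; subst h0; simp at h1)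
  have hc : ∀ o, Continuous (c o) := by
    intro o
    match o with
    | none =>
      apply continuous_pt continuous_id (by fun_prop) continuous_const
    | some x =>
      apply continuous_pt (by fun_prop) (by fun_prop) continuous_id
  have h0 : ∀ o, c o 0 = vinf := by
    intro o
    match o with
    | none =>
      simp only [c, vinf]
      rw [pt_eq_iff]
      exact ⟨1, by simp⟩
    | some x =>
      simp only [c, vinf]
      rw [pt_eq_iff]
      exact ⟨1, by simp⟩
  have hcs : ∀ o s, s ≠ 0 → (∃ x, o = some x ∧ c o s = aff (x, a * x + b x + 1 / s)) ∨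
      (o = none ∧ c o s = infp (a + 1 / s)) := by
    intro o s hs
    match o with
    | none =>
      right
      refine ⟨rfl, ?_⟩
      simp only [c, infp]
      rw [pt_eq_iff]
      exact ⟨s, by simp, by field_simp; ring, by simp⟩
    | some x =>
      left
      refine ⟨x, rfl, ?_⟩
      simp only [c, aff]
      rw [pt_eq_iff]
      exact ⟨s, by simp, by field_simp; ring, by simp⟩
  have key : (psl a b)ᶜ = ⋃ o, Set.range (c o) := by
    ext p
    simp only [Set.mem_compl_iff, Set.mem_iUnion, Set.mem_range]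
    constructor
    · intro hp
      rcases cases_pt p with ⟨⟨x, y⟩, rfl⟩ | ⟨m, rfl⟩ | rfl
      · rw [aff_mem_psl] at hp
        have hne : y - (a * x + b x) ≠ 0 := sub_ne_zero.mpr hp
        refine ⟨some x, 1 / (y - (a * x + b x)), ?_⟩
        rcases hcs (some x) (1 / (y - (a * x + b x))) (by positivity) with
          ⟨x', hx', h⟩ | ⟨h, _⟩
        · rw [h]
          cases hx'
          congr 1
          simp
        · cases h
      · rw [infp_mem_psl] at hp
        have hne : m - a ≠ 0 := sub_ne_zero.mpr hp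
        refine ⟨none, 1 / (m - a), ?_⟩
        rcases hcs none (1 / (m - a)) (by positivity) with
          ⟨x', hx', h⟩ | ⟨_, h⟩
        · cases hx'
        · rw [h]
          congr 1
          simp
      · exact ⟨none, 0, h0 none⟩
    · rintro ⟨o, s, rfl⟩
      by_cases hs : s = 0
      · subst hs
        rw [h0]
        exact vinf_not_mem_psl
      · rcases hcs o s hs with ⟨x, rfl, h⟩ | ⟨rfl, h⟩
        · rw [h, aff_mem_psl]
          intro h'
          have : (1 : ℝ) / s = 0 := by linarith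
          simp [hs] at this
        · rw [h, infp_mem_psl]
          intro h'
          have : (1 : ℝ) / s = 0 := by linarith
          simp [hs] at this
  rw [key]
  refine ⟨⟨vinf, Set.mem_iUnion.mpr ⟨none, 0, h0 none⟩⟩, ?_⟩
  apply isPreconnected_iUnion
  · exact ⟨vinf, Set.mem_iInter.mpr (fun o => ⟨0, h0 o⟩)⟩
  · exact fun o => (isConnected_range (hc o)).isPreconnected


/-- the curve is a simple closed curve when `b` is continuous and bounded -/
lemma isSimpleClosedCurve (a : ℝ) (b : ℝ → ℝ) (hb : Continuous b) (B : ℝ)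
    (hB : ∀ x, |b x| ≤ B) : IsSimpleClosedCurve (psl a b) := by
  -- homogeneous parametrisation
  let G : ℝ → ℝ := fun φ => a * Real.sin φ + Real.cos φ * b (Real.sin φ / Real.cos φ)
  have hG : Continuous G := by
    have h1 : Continuous (fun φ : ℝ => Real.cos φ * b (Real.sin φ / Real.cos φ)) := by
      rw [continuous_iff_continuousAt]
      intro φ
      by_cases hc : Real.cos φ = 0
      · -- squeeze
        have hval : Real.cos φ * b (Real.sin φ / Real.cos φ) = 0 := by rw [hc]; ring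
        rw [ContinuousAt, hval]
        have hlim : Filter.Tendsto (fun ψ => |Real.cos ψ| * B) (nhds φ) (nhds 0) := by
          have : Filter.Tendsto (fun ψ => |Real.cos ψ| * B) (nhds φ)
              (nhds (|Real.cos φ| * B)) :=
            ((Real.continuous_cos.abs).mul continuous_const).continuousAt
          simpa [hc] using this
        apply squeeze_zero_norm _ hlim
        intro ψ
        rw [Real.norm_eq_abs, abs_mul]
        exact mul_le_mul_of_nonneg_left (hB _) (abs_nonneg _)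
      · have hdiv : ContinuousAt (fun ψ : ℝ => Real.sin ψ / Real.cos ψ) φ :=
          Real.continuous_sin.continuousAt.div Real.continuous_cos.continuousAt hc
        exact Real.continuous_cos.continuousAt.mul
          (ContinuousAt.comp (f := fun ψ : ℝ => Real.sin ψ / Real.cos ψ) (g := b)
            hb.continuousAt hdiv)
    exact (continuous_const.mul Real.continuous_sin).add h1
  have hne : ∀ φ, (![Real.sin φ, G φ, Real.cos φ] : Fin 3 → ℝ) ≠ 0 := by
    intro φ
    rw [vec_ne_zero_iff]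
    rintro ⟨h0, _, h2⟩
    have := Real.sin_sq_add_cos_sq φ
    rw [h0, h2] at this
    norm_num at this
  let g : ℝ → RP2 := fun φ => pt (Real.sin φ) (G φ) (Real.cos φ) (hne φ)
  have hgc : Continuous g := continuous_pt Real.continuous_sin hG Real.continuous_cos hne
  have hper : Function.Periodic g Real.pi := by
    intro φ
    simp only [g]
    rw [pt_eq_iff]
    refine ⟨-1, ?_, ?_, ?_⟩
    · rw [Real.sin_add_pi]; ring
    · simp only [G]
      rw [Real.sin_add_pi, Real.cos_add_pi, neg_div_neg_eq]; ring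
    · rw [Real.cos_add_pi]; ring
  -- values
  have hval : ∀ φ, Real.cos φ ≠ 0 → g φ = aff (Real.tan φ, a * Real.tan φ + b (Real.tan φ)) := by
    intro φ hc
    simp only [g, aff]
    rw [pt_eq_iff]
    refine ⟨Real.cos φ, ?_, ?_, ?_⟩
    · rw [Real.tan_eq_sin_div_cos]; field_simp
    · simp only [G]
      rw [Real.tan_eq_sin_div_cos]; field_simp
    · ring
  have hval0 : ∀ φ, Real.cos φ = 0 → g φ = infp a := by
    intro φ hc
    simp only [g, infp]
    rw [pt_eq_iff]
    refine ⟨Real.sin φ, ?_, ?_, ?_⟩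
    · ring
    · simp only [G]
      rw [hc]; ring
    · rw [hc]; ring
  have hinj : ∀ φ ψ, φ ∈ Set.Ioc (-(Real.pi / 2)) (Real.pi / 2) →
      ψ ∈ Set.Ioc (-(Real.pi / 2)) (Real.pi / 2) → g φ = g ψ → φ = ψ := by
    have hcos : ∀ φ, φ ∈ Set.Ioc (-(Real.pi / 2)) (Real.pi / 2) → Real.cos φ = 0 →
        φ = Real.pi / 2 := by
      intro φ hφ hc
      by_contra hne
      have : 0 < Real.cos φ := Real.cos_pos_of_mem_Ioo ⟨hφ.1, lt_of_le_of_ne hφ.2 hne⟩
      linarith
    intro φ ψ hφ hψ h
    by_cases h1 : Real.cos φ = 0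
    · by_cases h2 : Real.cos ψ = 0
      · rw [hcos φ hφ h1, hcos ψ hψ h2]
      · rw [hval0 φ h1, hval ψ h2] at h
        exact absurd h.symm (aff_ne_infp _ _)
    · by_cases h2 : Real.cos ψ = 0
      · rw [hval φ h1, hval0 ψ h2] at h
        exact absurd h (aff_ne_infp _ _)
      · rw [hval φ h1, hval ψ h2] at h
        have h3 := congrArg Prod.fst (aff_inj h)
        have e1 : φ ∈ Set.Ioo (-(Real.pi / 2)) (Real.pi / 2) := by
          refine ⟨hφ.1, lt_of_le_of_ne hφ.2 ?_⟩
          rintro rfl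
          exact h1 Real.cos_pi_div_two
        have e2 : ψ ∈ Set.Ioo (-(Real.pi / 2)) (Real.pi / 2) := by
          refine ⟨hψ.1, lt_of_le_of_ne hψ.2 ?_⟩
          rintro rfl
          exact h2 Real.cos_pi_div_two
        exact Real.injOn_tan e1 e2 h3
  have : Fact ((0 : ℝ) < Real.pi) := ⟨Real.pi_pos⟩
  let γ : AddCircle Real.pi → RP2 := hper.lift
  have hγ : Continuous γ := by
    apply continuous_coinduced_dom.mpr
    exact hgc
  have hγinj : Function.Injective γ := by
    intro u v huv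
    obtain ⟨φ, hφ, rfl⟩ : ∃ φ ∈ Set.Ioc (-(Real.pi / 2)) (Real.pi / 2), (φ : AddCircle Real.pi) = u := by
      refine ⟨(AddCircle.equivIoc Real.pi (-(Real.pi / 2)) u).1, ?_, ?_⟩
      · have h := (AddCircle.equivIoc Real.pi (-(Real.pi / 2)) u).2
        exact ⟨h.1, by linarith [h.2]⟩
      · exact (AddCircle.equivIoc Real.pi (-(Real.pi / 2))).symm_apply_apply u
    obtain ⟨ψ, hψ, rfl⟩ : ∃ φ ∈ Set.Ioc (-(Real.pi / 2)) (Real.pi / 2), (φ : AddCircle Real.pi) = v := by
      refine ⟨(AddCircle.equivIoc Real.pi (-(Real.pi / 2)) v).1, ?_, ?_⟩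
      · have h := (AddCircle.equivIoc Real.pi (-(Real.pi / 2)) v).2
        exact ⟨h.1, by linarith [h.2]⟩
      · exact (AddCircle.equivIoc Real.pi (-(Real.pi / 2))).symm_apply_apply v
    have : g φ = g ψ := huv
    rw [hinj φ ψ hφ hψ this]
  have hrange : Set.range γ = psl a b := by
    ext p
    constructor
    · rintro ⟨u, rfl⟩
      induction u using QuotientAddGroup.induction_on with
      | H φ =>
        show g φ ∈ psl a b
        by_cases hc : Real.cos φ = 0
        · rw [hval0 φ hc]; right; rfl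
        · rw [hval φ hc]; left; exact ⟨_, rfl⟩
    · rintro (⟨x, rfl⟩ | rfl)
      · refine ⟨((Real.arctan x : ℝ) : AddCircle Real.pi), ?_⟩
        show g (Real.arctan x) = _
        rw [hval _ (ne_of_gt (Real.cos_arctan_pos x)), Real.tan_arctan]
      · refine ⟨((Real.pi / 2 : ℝ) : AddCircle Real.pi), ?_⟩
        show g (Real.pi / 2) = _
        rw [hval0 _ Real.cos_pi_div_two]
  let e := AddCircle.homeomorphCircle (T := Real.pi) Real.pi_pos.ne'
  refine ⟨γ ∘ e.symm, hγ.comp e.symm.continuous, hγinj.comp e.symm.injective, ?_⟩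
  rw [Set.range_comp, e.symm.surjective.range_eq, Set.image_univ, hrange]

lemma isPseudoline (a : ℝ) (b : ℝ → ℝ) (hb : Continuous b) (B : ℝ)
    (hB : ∀ x, |b x| ≤ B) : IsPseudoline (psl a b) :=
  ⟨isSimpleClosedCurve a b hb B hB, compl_connected a b⟩

/-- crossing of two such curves at an affine point where both are locally straight -/
lemma crossAt {a₁ a₂ : ℝ} {b₁ b₂ : ℝ → ℝ} {l r x₀ α₁ β₁ α₂ β₂ : ℝ} (hl : l < x₀) (hr : x₀ < r)
    (h₁ : ∀ x, l < x → x < r → a₁ * x + b₁ x = α₁ * x + β₁)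
    (h₂ : ∀ x, l < x → x < r → a₂ * x + b₂ x = α₂ * x + β₂)
    (hne : α₁ ≠ α₂) (h0 : α₁ * x₀ + β₁ = α₂ * x₀ + β₂) :
    CrossAt (psl a₁ b₁) (psl a₂ b₂) (aff (x₀, a₁ * x₀ + b₁ x₀)) := by
  let e₀ := (isOpenEmbedding_aff.toOpenPartialHomeomorph aff).symm
  have hsub : α₁ - α₂ ≠ 0 := sub_ne_zero.mpr hne
  let A : (ℝ × ℝ) ≃ₜ (ℝ × ℝ) :=
    { toFun := fun q => (q.2 - (α₁ * q.1 + β₁), q.2 - (α₂ * q.1 + β₂))
      invFun := fun w => ((w.2 - w.1 - (β₁ - β₂)) / (α₁ - α₂),
        w.1 + (α₁ * ((w.2 - w.1 - (β₁ - β₂)) / (α₁ - α₂)) + β₁))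
      left_inv := by
        intro q
        have : ((q.2 - (α₂ * q.1 + β₂)) - (q.2 - (α₁ * q.1 + β₁)) - (β₁ - β₂)) / (α₁ - α₂)
            = q.1 := by
          field_simp
          ring
        ext
        · exact this
        · simp only [this]; ring
      right_inv := by
        intro w
        ext
        · simp
        · simp only
          field_simp
          ring
      continuous_toFun := by fun_prop
      continuous_invFun := by fun_prop }
  let V : Set (ℝ × ℝ) := {q | l < q.1 ∧ q.1 < r}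
  have hV : IsOpen V := (isOpen_lt continuous_const continuous_fst).inter
    (isOpen_lt continuous_fst continuous_const)
  have hUopen : IsOpen (aff '' V) := isOpenEmbedding_aff.isOpenMap V hV
  let φ := (e₀.trans A.toOpenPartialHomeomorph).restrOpen (aff '' V) hUopen
  have hsrc : φ.source = aff '' V := by
    ext p
    simp only [φ, e₀, OpenPartialHomeomorph.restrOpen_source, Set.mem_inter_iff]
    constructor
    · exact fun h => h.2
    · intro h
      refine ⟨?_, h⟩
      obtain ⟨q, _, rfl⟩ := h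
      simp
  have happ : ∀ q, φ (aff q) = A q := by
    intro q
    have : e₀ (aff q) = q := isOpenEmbedding_aff.toOpenPartialHomeomorph_left_inv aff
    show A (e₀ (aff q)) = A q
    rw [this]
  have hx0 : a₁ * x₀ + b₁ x₀ = α₁ * x₀ + β₁ := h₁ x₀ hl hr
  refine ⟨φ, ?_, ?_, ?_⟩
  · rw [hsrc]
    exact ⟨(x₀, a₁ * x₀ + b₁ x₀), ⟨hl, hr⟩, rfl⟩
  · rw [happ]
    show (_, _) = _
    ext
    · show (a₁ * x₀ + b₁ x₀) - (α₁ * x₀ + β₁) = 0
      linarith
    · show (a₁ * x₀ + b₁ x₀) - (α₂ * x₀ + β₂) = 0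
      linarith
  · intro y hy
    rw [hsrc] at hy
    obtain ⟨⟨x, y⟩, ⟨hx1, hx2⟩, rfl⟩ := hy
    rw [happ, aff_mem_psl, aff_mem_psl]
    have e1 := h₁ x hx1 hx2
    have e2 := h₂ x hx1 hx2
    constructor
    · show _ ↔ y - (α₁ * x + β₁) = 0
      rw [e1, sub_eq_zero]
    · show _ ↔ y - (α₂ * x + β₂) = 0
      rw [e2, sub_eq_zero]

end Pool.Agent.Helper84.Topo
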