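import Pool.Agent.Helper84.RP2Geom

set_option autoImplicit false

namespace Pool.Agent.Helper84.Topo

/-- hat function -/
noncomputable def hat (u : ℝ) : ℝ := max 0 (1 - |u|)

lemma continuous_hat : Continuous hat := by unfold hat; fun_prop

/-- piecewise linear interpolation of `h 0, h 1, …, h T` -/
noncomputable def pl (T : ℕ) (h : ℕ → ℕ) (y : ℝ) : ℝ :=
  ∑ t ∈ Finset.range (T + 1), (h t : ℝ) * hat (y - t)

lemma continuous_pl (T : ℕ) (h : ℕ → ℕ) : Continuous (pl T h) := by
  unfold pl
  apply continuous_finsetSum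
  intro t _
  exact continuous_const.mul (continuous_hat.comp (continuous_id.sub continuous_const))

lemma pl_seg {T : ℕ} (h : ℕ → ℕ) {t : ℕ} (ht : t < T) {y : ℝ} (h1 : (t : ℝ) ≤ y)
    (h2 : y ≤ t + 1) :
    pl T h y = (h t : ℝ) * (t + 1 - y) + (h (t + 1) : ℝ) * (y - t) := by
  unfold pl
  rw [Finset.sum_eq_add t (t + 1) (by omega)]
  · congr 1
    · congr 1
      unfold hat
      rw [abs_of_nonneg (by linarith), max_eq_right (by linarith)]
      ring
    · congr 1
      unfold hat
      push_cast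
      rw [abs_of_nonpos (by linarith), max_eq_right (by linarith)]
      ring
  · intro c _ hc
    have : hat (y - c) = 0 := by
      unfold hat
      apply max_eq_left
      rcases lt_or_gt_of_ne hc.1 with h3 | h3
      · have : (c : ℝ) + 1 ≤ t := by exact_mod_cast h3
        rw [abs_of_nonneg (by linarith)]
        linarith
      · have h4 : t + 1 < c := by omega
        have : (t : ℝ) + 1 + 1 ≤ c := by exact_mod_cast h4
        rw [abs_of_nonpos (by linarith)]
        linarith
    rw [this, mul_zero]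
  · intro h3
    exact absurd (Finset.mem_range.mpr (by omega)) h3
  · intro h3
    exact absurd (Finset.mem_range.mpr (by omega)) h3

/-- clamp to `[0, T]` -/
noncomputable def clamp (T : ℕ) (x : ℝ) : ℝ := max 0 (min x T)

lemma continuous_clamp (T : ℕ) : Continuous (clamp T) := by unfold clamp; fun_prop

lemma clamp_nonneg (T : ℕ) (x : ℝ) : 0 ≤ clamp T x := le_max_left _ _

lemma clamp_le (T : ℕ) (x : ℝ) : clamp T x ≤ T :=
  max_le (by positivity) (min_le_right _ _)

/-- bounded part of the wire number `k` with heights `h` -/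
noncomputable def wb (T : ℕ) (k : ℕ) (h : ℕ → ℕ) (x : ℝ) : ℝ :=
  pl T h (clamp T x) + k * clamp T x

lemma continuous_wb (T k : ℕ) (h : ℕ → ℕ) : Continuous (wb T k h) :=
  ((continuous_pl T h).comp (continuous_clamp T)).add
    (continuous_const.mul (continuous_clamp T))

lemma bounded_wb (T k : ℕ) (h : ℕ → ℕ) : ∃ B, ∀ x, |wb T k h x| ≤ B := by
  have hc : Continuous (fun y => pl T h y + k * y) :=
    (continuous_pl T h).add (continuous_const.mul continuous_id)
  obtain ⟨B, hB⟩ := (isCompact_Icc (a := (0 : ℝ)) (b := (T : ℝ))).exists_bound_of_continuousOn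
    hc.continuousOn
  exact ⟨B, fun x => hB _ ⟨clamp_nonneg T x, clamp_le T x⟩⟩

/-- the height function of the wire -/
noncomputable def wf (T : ℕ) (k : ℕ) (h : ℕ → ℕ) (x : ℝ) : ℝ := (-(k : ℝ)) * x + wb T k h x

lemma wf_left {T : ℕ} (hT : 0 < T) (k : ℕ) (h : ℕ → ℕ) {x : ℝ} (hx : x ≤ 0) :
    wf T k h x = h 0 - k * x := by
  have hc : clamp T x = 0 := by
    unfold clamp
    exact max_eq_left (le_trans (min_le_left _ _) hx)
  unfold wf wb
  rw [hc, pl_seg h hT (by simp) (by simp)]
  simp
  ring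

lemma wf_right {T : ℕ} (hT : 0 < T) (k : ℕ) (h : ℕ → ℕ) {x : ℝ} (hx : (T : ℝ) ≤ x) :
    wf T k h x = h T - k * (x - T) := by
  have hc : clamp T x = T := by
    unfold clamp
    rw [min_eq_right hx]
    exact max_eq_right (by positivity)
  obtain ⟨S, rfl⟩ : ∃ S, T = S + 1 := ⟨T - 1, by omega⟩
  unfold wf wb
  rw [hc, pl_seg h (Nat.lt_succ_self S) (by push_cast; linarith) (by push_cast; linarith)]
  push_cast
  ring

lemma wf_mid {T : ℕ} (k : ℕ) (h : ℕ → ℕ) {t : ℕ} (ht : t < T) {x : ℝ} (h1 : (t : ℝ) ≤ x)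
    (h2 : x ≤ t + 1) :
    wf T k h x = (h t : ℝ) * (t + 1 - x) + (h (t + 1) : ℝ) * (x - t) := by
  have h3 : (t : ℝ) + 1 ≤ T := by exact_mod_cast ht
  have hc : clamp T x = x := by
    unfold clamp
    rw [min_eq_left (by linarith)]
    exact max_eq_right (le_trans (by positivity) h1)
  unfold wf wb
  rw [hc, pl_seg h ht h1 h2]
  ring

/-- Two wires swap exactly once, at slot `s`. -/
def Swap (T : ℕ) (h g : ℕ → ℕ) (s : ℕ) : Prop :=
  s < T ∧ (∀ t, t ≤ s → h t < g t) ∧ (∀ t, s < t → t ≤ T → g t < h t) ∧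
    h s + h (s + 1) = g s + g (s + 1)

lemma wf_half {T : ℕ} (k : ℕ) (h : ℕ → ℕ) {t : ℕ} (ht : t < T) :
    wf T k h (t + 1 / 2) = ((h t + h (t + 1) : ℕ) : ℝ) / 2 := by
  rw [wf_mid k h ht (by linarith) (by linarith)]
  push_cast
  ring

lemma wf_eq_iff {T : ℕ} {k l : ℕ} (hkl : k < l) {h g : ℕ → ℕ} {s : ℕ} (hs : Swap T h g s)
    (x : ℝ) : wf T k h x = wf T l g x ↔ x = s + 1 / 2 := by
  obtain ⟨hsT, h1, h2, h3⟩ := hs
  have hkl' : (k : ℝ) < l := by exact_mod_cast hkl
  have hT : 0 < T := by omega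
  constructor
  · intro he
    by_cases hx0 : x ≤ 0
    · rw [wf_left hT k h hx0, wf_left hT l g hx0] at he
      have : (h 0 : ℝ) < g 0 := by exact_mod_cast h1 0 (by omega)
      nlinarith
    by_cases hxT : (T : ℝ) ≤ x
    · rw [wf_right hT k h hxT, wf_right hT l g hxT] at he
      have : (g T : ℝ) < h T := by exact_mod_cast h2 T (by omega) le_rfl
      nlinarith
    push Not at hx0 hxT
    have hfl : ⌊x⌋₊ < T := by
      rw [Nat.floor_lt hx0.le]
      exact hxT
    set t := ⌊x⌋₊ with ht
    have hl : (t : ℝ) ≤ x := Nat.floor_le hx0.le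
    have hr : x ≤ t + 1 := (Nat.lt_floor_add_one x).le
    rw [wf_mid k h hfl hl hr, wf_mid l g hfl hl hr] at he
    rcases lt_trichotomy t s with hlt | heq | hgt
    · exfalso
      have a1 : (h t : ℝ) < g t := by exact_mod_cast h1 t (by omega)
      have a2 : (h (t + 1) : ℝ) < g (t + 1) := by exact_mod_cast h1 (t + 1) (by omega)
      have p1 : 0 ≤ ((g t : ℝ) - h t) * (t + 1 - x) := mul_nonneg (by linarith) (by linarith)
      have p2 : 0 ≤ ((g (t + 1) : ℝ) - h (t + 1)) * (x - t) :=
        mul_nonneg (by linarith) (by linarith)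
      rcases le_total (x - t) (1 / 2) with hh | hh
      · have p3 : 0 < ((g t : ℝ) - h t) * (t + 1 - x) := mul_pos (by linarith) (by linarith)
        linarith
      · have p3 : 0 < ((g (t + 1) : ℝ) - h (t + 1)) * (x - t) :=
          mul_pos (by linarith) (by linarith)
        linarith
    · rw [heq] at he hl hr
      have a1 : (h s : ℝ) < g s := by exact_mod_cast h1 s le_rfl
      have a3 : (h s : ℝ) + h (s + 1) = g s + g (s + 1) := by exact_mod_cast h3
      have a4 : (h (s + 1) : ℝ) = g s + g (s + 1) - h s := by linarith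
      rw [a4] at he
      have a5 : ((g s : ℝ) - h s) * (2 * (x - s) - 1) = 0 := by linarith
      rcases mul_eq_zero.mp a5 with a6 | a6
      · linarith
      · linarith
    · exfalso
      have a1 : (g t : ℝ) < h t := by exact_mod_cast h2 t (by omega) (by omega)
      have a2 : (g (t + 1) : ℝ) < h (t + 1) := by exact_mod_cast h2 (t + 1) (by omega) (by omega)
      have p1 : 0 ≤ ((h t : ℝ) - g t) * (t + 1 - x) := mul_nonneg (by linarith) (by linarith)
      have p2 : 0 ≤ ((h (t + 1) : ℝ) - g (t + 1)) * (x - t) :=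
        mul_nonneg (by linarith) (by linarith)
      rcases le_total (x - t) (1 / 2) with hh | hh
      · have p3 : 0 < ((h t : ℝ) - g t) * (t + 1 - x) := mul_pos (by linarith) (by linarith)
        linarith
      · have p3 : 0 < ((h (t + 1) : ℝ) - g (t + 1)) * (x - t) :=
          mul_pos (by linarith) (by linarith)
        linarith
  · rintro rfl
    rw [wf_half k h hsT, wf_half l g hsT, h3]

/-- the pseudoline of a wire -/
noncomputable def wl (T : ℕ) (k : ℕ) (h : ℕ → ℕ) : Set RP2 := psl (-(k : ℝ)) (wb T k h)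

lemma wl_isPseudoline (T k : ℕ) (h : ℕ → ℕ) : IsPseudoline (wl T k h) := by
  obtain ⟨B, hB⟩ := bounded_wb T k h
  exact isPseudoline _ _ (continuous_wb T k h) B hB

lemma wl_inter {T : ℕ} {k l : ℕ} (hkl : k < l) {h g : ℕ → ℕ} {s : ℕ} (hs : Swap T h g s) :
    wl T k h ∩ wl T l g = {aff ((s : ℝ) + 1 / 2, wf T k h (s + 1 / 2))} := by
  have hkl' : (k : ℝ) < l := by exact_mod_cast hkl
  ext p
  rw [Set.mem_inter_iff, Set.mem_singleton_iff]
  constructor
  · rintro ⟨h1, h2⟩
    rcases cases_pt p with ⟨⟨x, y⟩, rfl⟩ | ⟨m, rfl⟩ | rfl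
    · unfold wl at h1 h2
      rw [aff_mem_psl] at h1 h2
      have he : wf T k h x = wf T l g x := by
        unfold wf
        rw [← h1, ← h2]
      rw [wf_eq_iff hkl hs] at he
      subst he
      congr 1
      rw [h1]
      rfl
    · unfold wl at h1 h2
      rw [infp_mem_psl] at h1 h2
      exfalso
      linarith
    · exact absurd h1 vinf_not_mem_psl
  · rintro rfl
    unfold wl
    rw [aff_mem_psl, aff_mem_psl]
    exact ⟨rfl, (wf_eq_iff hkl hs _).mpr rfl⟩

lemma wl_cross {T : ℕ} {k l : ℕ} {h g : ℕ → ℕ} {s : ℕ} (hs : Swap T h g s) :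
    CrossAt (wl T k h) (wl T l g) (aff ((s : ℝ) + 1 / 2, wf T k h (s + 1 / 2))) := by
  obtain ⟨hsT, h1, h2, h3⟩ := hs
  unfold wl wf
  refine crossAt (l := (s : ℝ)) (r := (s : ℝ) + 1)
    (α₁ := (h (s + 1) : ℝ) - h s) (β₁ := (h s : ℝ) * (s + 1) - h (s + 1) * s)
    (α₂ := (g (s + 1) : ℝ) - g s) (β₂ := (g s : ℝ) * (s + 1) - g (s + 1) * s)
    (by linarith) (by linarith) ?_ ?_ ?_ ?_
  · intro x hx1 hx2
    have := wf_mid k h hsT hx1.le hx2.le
    unfold wf at this
    rw [this]
    ring
  · intro x hx1 hx2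
    have := wf_mid l g hsT hx1.le hx2.le
    unfold wf at this
    rw [this]
    ring
  · have a1 : (h s : ℝ) < g s := by exact_mod_cast h1 s le_rfl
    have a2 : (g (s + 1) : ℝ) < h (s + 1) := by
      exact_mod_cast h2 (s + 1) (by omega) (by omega)
    intro h5
    linarith
  · have a3 : (h s : ℝ) + h (s + 1) = g s + g (s + 1) := by exact_mod_cast h3
    linarith

lemma CrossAt.symm {S T : Set RP2} {x : RP2} (h : CrossAt S T x) : CrossAt T S x := by
  obtain ⟨φ, h1, h2, h3⟩ := h
  refine ⟨φ.trans (Homeomorph.prodComm ℝ ℝ).toOpenPartialHomeomorph, ?_, ?_, ?_⟩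
  · simpa using h1
  · simp [h2]
  · intro y hy
    have hy' : y ∈ φ.source := by simpa using hy
    have := h3 y hy'
    constructor
    · simpa using this.2
    · simpa using this.1

/-- A wiring diagram with `n` wires `H 0, …, H (n-1)` yields an arrangement of pseudolines, and
finitely many marked slots and centres yield points with prescribed incidences. -/
theorem wiring {n : ℕ} {A : Type*} (T : ℕ) (H : Fin n → ℕ → ℕ)
    (hH : ∀ i j, i < j → ∃ s, Swap T (H i) (H j) s)
    (q : A → ℕ × ℕ) (hq : Function.Injective q) (hqT : ∀ a, (q a).1 < T) :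
    TopologicallyRealizable
      (fun (a : A) (i : Fin n) => H i (q a).1 + H i ((q a).1 + 1) = (q a).2) := by
  refine ⟨fun a => aff (((q a).1 : ℝ) + 1 / 2, ((q a).2 : ℝ) / 2),
    fun i => wl T i (H i), ?_, ?_, ⟨?_, ?_⟩, ?_⟩
  · intro a b hab
    have := aff_inj hab
    rw [Prod.mk.injEq] at this
    apply hq
    have h1 : ((q a).1 : ℝ) = (q b).1 := by linarith [this.1]
    have h2 : ((q a).2 : ℝ) = (q b).2 := by linarith [this.2]
    ext
    · exact_mod_cast h1
    · exact_mod_cast h2
  · intro i j hij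
    have h1 : infp (-((i : ℕ) : ℝ)) ∈ wl T i (H i) := infp_mem_psl.mpr rfl
    have h2 : infp (-((i : ℕ) : ℝ)) ∈ wl T j (H j) := by
      have : wl T i (H i) = wl T j (H j) := hij
      rw [← this]
      exact h1
    have h3 := infp_mem_psl.mp h2
    have h4 : ((i : ℕ) : ℝ) = ((j : ℕ) : ℝ) := by linarith
    exact Fin.ext (by exact_mod_cast h4)
  · intro i
    exact wl_isPseudoline T i (H i)
  · intro i j hij
    rcases lt_or_gt_of_ne hij with h | h
    · obtain ⟨s, hs⟩ := hH i j h
      exact ⟨_, wl_inter h hs, wl_cross hs⟩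
    · obtain ⟨s, hs⟩ := hH j i h
      refine ⟨_, ?_, (wl_cross hs).symm⟩
      rw [Set.inter_comm]
      exact wl_inter h hs
  · intro a i
    unfold wl
    rw [aff_mem_psl]
    have := wf_half (T := T) (i : ℕ) (H i) (hqT a)
    unfold wf at this
    rw [this]
    constructor
    · intro h
      have h' : ((q a).2 : ℝ) = ((H i (q a).1 + H i ((q a).1 + 1) : ℕ) : ℝ) := by linarith
      have h'' : (q a).2 = H i (q a).1 + H i ((q a).1 + 1) := by exact_mod_cast h'
      exact h''.symm
    · intro h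
      rw [h]

/-- transfer of realizability along bijective relabelings (injective relabelings suffice) -/
lemma TopologicallyRealizable.comap {A B A' B' : Type*} {I : A → B → Prop}
    (h : TopologicallyRealizable I) (f : A' → A) (g : B' → B) (hf : Function.Injective f)
    (hg : Function.Injective g) : TopologicallyRealizable (fun a b => I (f a) (g b)) := by
  obtain ⟨P, L, hP, hL, ⟨h1, h2⟩, h3⟩ := h
  exact ⟨P ∘ f, L ∘ g, hP.comp hf, hL.comp hg,
    ⟨fun b => h1 _, fun b c hbc => h2 _ _ (hg.ne hbc)⟩, fun a b => h3 _ _⟩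

end Pool.Agent.Helper84.Topo
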