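import Pool.Agent.Helper84.RP2Defs

set_option autoImplicit false

open scoped LinearAlgebra.Projectivization

namespace Pool.Agent.Helper84.Topo

def ptTab : List ℕ := [40, 13, 13, 4, 22, 31, 4, 31, 22, 1, 16, 19, 7, 25, 37, 10, 34, 28, 1, 19, 16, 10, 28, 34, 7, 37, 25, 0, 14, 15, 5, 23, 33, 6, 32, 24, 2, 17, 21, 8, 26, 39, 12, 35, 30, 3, 20, 18, 11, 29, 36, 9, 38, 27, 0, 15, 14, 6, 24, 32, 5, 33, 23, 3, 18, 20, 9, 27, 38, 11, 36, 29, 2, 21, 17, 12, 30, 35, 8, 39, 26]
def lnTab : List (List ℕ) := [[0, 4, 5, 6], [0, 13, 14, 15], [0, 22, 23, 24], [0, 31, 32, 33], [1, 4, 7, 10], [1, 13, 16, 19], [1, 22, 25, 28], [1, 31, 34, 37], [2, 4, 8, 12], [2, 13, 17, 21], [2, 22, 26, 30], [2, 31, 35, 39], [3, 4, 9, 11], [3, 13, 18, 20], [3, 22, 27, 29], [3, 31, 36, 38], [5, 19, 29, 39], [5, 20, 30, 37], [5, 21, 28, 38], [6, 16, 27, 35], [6, 17, 25, 36], [6, 18, 26, 34], [7, 14, 26, 38], [7, 17, 29, 32], [7, 20, 23, 35], [8, 14, 27, 37], [8, 18, 28, 32], [8, 19, 23, 36], [9, 14, 25, 39], [9, 16, 30,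 32], [9, 21, 23, 34], [10, 15, 30, 36], [10, 18, 24, 39], [10, 21, 27, 33], [11, 15, 28, 35], [11, 17, 24, 37], [11, 19, 26, 33], [12, 15, 29, 34], [12, 16, 24, 38], [12, 20, 25, 33]]
def bU : List ℕ := [27, 27, 27, 27, 9, 9, 9, 9, 36, 36, 36, 36, 63, 63, 63, 63, 30, 30, 30, 57, 57, 57, 12, 12, 12, 39, 39, 39, 66, 66, 66, 21, 21, 21, 48, 48, 48, 75, 75, 75]
def bV : List ℕ := [3, 1, 4, 7, 3, 1, 4, 7, 3, 1, 4, 7, 3, 1, 4, 7, 19, 46, 73, 10, 37, 64, 28, 37, 46, 28, 64, 19, 28, 10, 73, 55, 64, 73, 55, 37, 19, 55, 10, 46]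

/-- the base three code of a vector -/
def code (v : Fin 4 → ZMod 3) : ℕ :=
  (v 0).val + 3 * (v 1).val + 9 * (v 2).val + 27 * (v 3).val

/-- linear combinations of codes -/
def lc (a b x y : ℕ) : ℕ :=
  (a * (x % 3) + b * (y % 3)) % 3 + 3 * ((a * (x / 3 % 3) + b * (y / 3 % 3)) % 3)
    + 9 * ((a * (x / 9 % 3) + b * (y / 9 % 3)) % 3)
    + 27 * ((a * (x / 27 % 3) + b * (y / 27 % 3)) % 3)

/-- symplectic form of codes -/
def sy (x y : ℕ) : ℕ :=
  ((x % 3) * (y / 3 % 3) + 2 * ((x / 3 % 3) * (y % 3)) + (x / 9 % 3) * (y / 27 % 3)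
    + 2 * ((x / 27 % 3) * (y / 9 % 3))) % 3

lemma code_lt (v : Fin 4 → ZMod 3) : code v < 81 := by
  unfold code
  have h0 := ZMod.val_lt (v 0)
  have h1 := ZMod.val_lt (v 1)
  have h2 := ZMod.val_lt (v 2)
  have h3 := ZMod.val_lt (v 3)
  omega

lemma code_digits (v : Fin 4 → ZMod 3) : code v % 3 = (v 0).val ∧ code v / 3 % 3 = (v 1).val ∧
    code v / 9 % 3 = (v 2).val ∧ code v / 27 % 3 = (v 3).val := by
  unfold code
  have h0 := ZMod.val_lt (v 0)
  have h1 := ZMod.val_lt (v 1)
  have h2 := ZMod.val_lt (v 2)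
  have h3 := ZMod.val_lt (v 3)
  refine ⟨?_, ?_, ?_, ?_⟩ <;> omega

lemma code_inj {u v : Fin 4 → ZMod 3} (h : code u = code v) : u = v := by
  obtain ⟨a0, a1, a2, a3⟩ := code_digits u
  obtain ⟨b0, b1, b2, b3⟩ := code_digits v
  rw [h] at a0 a1 a2 a3
  have e0 := ZMod.val_injective 3 (a0.symm.trans b0)
  have e1 := ZMod.val_injective 3 (a1.symm.trans b1)
  have e2 := ZMod.val_injective 3 (a2.symm.trans b2)
  have e3 := ZMod.val_injective 3 (a3.symm.trans b3)
  funext i
  fin_cases i
  · exact e0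
  · exact e1
  · exact e2
  · exact e3

lemma val_lc (a b x y : ZMod 3) : (a * x + b * y).val = (a.val * x.val + b.val * y.val) % 3 := by
  rw [ZMod.val_add, ZMod.val_mul, ZMod.val_mul, ← Nat.add_mod]

lemma code_lc (a b : ZMod 3) (u v : Fin 4 → ZMod 3) :
    code (a • u + b • v) = lc a.val b.val (code u) (code v) := by
  obtain ⟨a0, a1, a2, a3⟩ := code_digits u
  obtain ⟨b0, b1, b2, b3⟩ := code_digits v
  unfold lc
  rw [a0, a1, a2, a3, b0, b1, b2, b3]
  conv_lhs => unfold code
  simp only [Pi.add_apply, Pi.smul_apply, smul_eq_mul, val_lc]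

lemma sy_of_symp {u v : Fin 4 → ZMod 3} (h : symp u v = 0) : sy (code u) (code v) = 0 := by
  obtain ⟨a0, a1, a2, a3⟩ := code_digits u
  obtain ⟨b0, b1, b2, b3⟩ := code_digits v
  unfold sy
  rw [a0, a1, a2, a3, b0, b1, b2, b3]
  apply Nat.mod_eq_zero_of_dvd
  rw [← ZMod.natCast_eq_zero_iff]
  push_cast
  simp only [ZMod.natCast_zmod_val]
  have h2 : (2 : ZMod 3) = -1 := by decide
  rw [h2, ← h]
  unfold symp
  ring

lemma code_zero : code 0 = 0 := by decide

lemma code_ne_zero {u : Fin 4 → ZMod 3} (h : u ≠ 0) : code u ≠ 0 := by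
  intro h'
  exact h (code_inj (h'.trans code_zero.symm))

/-- decoding -/
def dec (n : ℕ) : Fin 4 → ZMod 3 := ![(n : ZMod 3), (n / 3 : ℕ), (n / 9 : ℕ), (n / 27 : ℕ)]

lemma code_dec {n : ℕ} (hn : n < 81) : code (dec n) = n := by
  revert n
  decide +kernel

/-- check 1: equal table entries mean proportional vectors -/
def c1 (x y : ℕ) : Bool :=
  x == 0 || y == 0 || !(ptTab.getD x 0 == ptTab.getD y 0) || x == y || x == lc 2 0 y 0

lemma chk1 : (List.range 81).all (fun x => (List.range 81).all (fun y => c1 x y)) = true := by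
  decide +kernel

lemma chk1b : (List.range 81).all (fun x => x == 0 || Nat.blt (ptTab.getD x 0) 40) = true := by
  decide +kernel

/-- all linear combinations of two codes -/
def combs (x y : ℕ) : List ℕ :=
  [lc 0 0 x y, lc 0 1 x y, lc 0 2 x y, lc 1 0 x y, lc 1 1 x y, lc 1 2 x y,
    lc 2 0 x y, lc 2 1 x y, lc 2 2 x y]

/-- check 2: an isotropic pair of independent vectors spans a subspace containing the basis of
one of the forty lines -/
def c2 (x y : ℕ) : Bool :=
  x == 0 || !(sy x y == 0) || y == 0 || y == x || y == lc 2 0 x 0 ||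
    (List.range 40).any (fun j => (combs x y).elem (bU.getD j 0) && (combs x y).elem (bV.getD j 0))

lemma chk2 : (List.range 81).all (fun x => (List.range 81).all (fun y => c2 x y)) = true := by
  decide +kernel

/-- check 3: the two basis vectors of each line are independent -/
lemma chk3 : ∀ j < 40, ∀ a < 3, ∀ b < 3, lc a b (bU.getD j 0) (bV.getD j 0) = 0 →
    a = 0 ∧ b = 0 := by decide +kernel

/-- check 4: the points on each line -/
def c4 (j x : ℕ) : Bool :=
  x == 0 ||
    ((combs (bU.getD j 0) (bV.getD j 0)).elem x == (lnTab.getD j []).elem (ptTab.getD x 0))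

lemma chk4 : (List.range 40).all (fun j => (List.range 81).all (fun x => c4 j x)) = true := by
  decide +kernel

lemma chk5 : ∀ j < 40, bU.getD j 0 < 81 ∧ bV.getD j 0 < 81 := by decide +kernel

lemma mem_combs {x y z : ℕ} : z ∈ combs x y ↔ ∃ a b : ZMod 3, z = lc a.val b.val x y := by
  unfold combs
  constructor
  · intro h
    simp only [List.mem_cons, List.not_mem_nil, or_false] at h
    rcases h with h | h | h | h | h | h | h | h | h
    · exact ⟨0, 0, h⟩
    · exact ⟨0, 1, h⟩
    · exact ⟨0, 2, h⟩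
    · exact ⟨1, 0, h⟩
    · exact ⟨1, 1, h⟩
    · exact ⟨1, 2, h⟩
    · exact ⟨2, 0, h⟩
    · exact ⟨2, 1, h⟩
    · exact ⟨2, 2, h⟩
  · rintro ⟨a, b, rfl⟩
    have ha : a = 0 ∨ a = 1 ∨ a = 2 := by revert a; decide
    have hb : b = 0 ∨ b = 1 ∨ b = 2 := by revert b; decide
    rcases ha with rfl | rfl | rfl <;> rcases hb with rfl | rfl | rfl <;> simp [ZMod.val] <;> tauto

/-- membership in a span through codes -/
lemma mem_span_iff {u v w : Fin 4 → ZMod 3} :
    w ∈ Submodule.span (ZMod 3) {u, v} ↔ code w ∈ combs (code u) (code v) := by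
  rw [Submodule.mem_span_pair, mem_combs]
  constructor
  · rintro ⟨a, b, rfl⟩
    exact ⟨a, b, code_lc a b u v⟩
  · rintro ⟨a, b, h⟩
    exact ⟨a, b, (code_inj (h.trans (code_lc a b u v).symm)).symm⟩

/-- the forty standard lines -/
def stdLine (j : ℕ) : Submodule (ZMod 3) (Fin 4 → ZMod 3) :=
  Submodule.span (ZMod 3) {dec (bU.getD j 0), dec (bV.getD j 0)}

lemma finrank_stdLine {j : ℕ} (hj : j < 40) : Module.finrank (ZMod 3) (stdLine j) = 2 := by
  have hli : LinearIndependent (ZMod 3) ![dec (bU.getD j 0), dec (bV.getD j 0)] := by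
    rw [LinearIndependent.pair_iff]
    intro a b h
    have h1 := code_lc a b (dec (bU.getD j 0)) (dec (bV.getD j 0))
    rw [h, code_zero, code_dec (chk5 j hj).1, code_dec (chk5 j hj).2] at h1
    have := chk3 j hj a.val (ZMod.val_lt a) b.val (ZMod.val_lt b) h1.symm
    exact ⟨(ZMod.val_eq_zero a).mp this.1, (ZMod.val_eq_zero b).mp this.2⟩
  have h1 := finrank_span_eq_card hli
  have hr : Set.range ![dec (bU.getD j 0), dec (bV.getD j 0)] =
      {dec (bU.getD j 0), dec (bV.getD j 0)} := by
    rw [Matrix.range_cons, Matrix.range_cons, Matrix.range_empty, Set.union_empty,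
      Set.singleton_union]
  unfold stdLine
  rw [← hr]
  exact h1

/-- every line of the quadrangle is one of the forty standard ones -/
lemma exists_std (W : W3Line) : ∃ j < 40, W.1 = stdLine j := by
  obtain ⟨W, hW, hiso⟩ := W
  have b := Module.finBasisOfFinrankEq (ZMod 3) W hW
  set u : Fin 4 → ZMod 3 := (b 0 : Fin 4 → ZMod 3) with hu
  set v : Fin 4 → ZMod 3 := (b 1 : Fin 4 → ZMod 3) with hv
  have hli : LinearIndependent (ZMod 3) ![u, v] := by
    have h1 := b.linearIndependent.map' W.subtype (Submodule.ker_subtype W)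
    have h2 : (W.subtype ∘ b) = ![u, v] := by
      funext i
      fin_cases i <;> rfl
    rwa [h2] at h1
  rw [LinearIndependent.pair_iff] at hli
  have hu0 : u ≠ 0 := by
    intro h
    have := hli 1 0 (by simp [h])
    exact absurd this.1 (by decide)
  have hv0 : v ≠ 0 := by
    intro h
    have := hli 0 1 (by simp [h])
    exact absurd this.2 (by decide)
  have hvu : code v ≠ code u := by
    intro h
    have h' := code_inj h
    have := hli 1 (-1) (by simp [h'])
    exact absurd this.1 (by decide)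
  have hvu2 : code v ≠ lc 2 0 (code u) 0 := by
    intro h
    have h3 := code_lc 2 0 u 0
    rw [code_zero] at h3
    have h4 : code v = code ((2 : ZMod 3) • u + (0 : ZMod 3) • (0 : Fin 4 → ZMod 3)) := by
      rw [h3]
      exact h
    have h' := code_inj h4
    have := hli (-2) 1 (by rw [h']; simp)
    exact absurd this.2 (by decide)
  have hsy : sy (code u) (code v) = 0 := sy_of_symp (hiso u (b 0).2 v (b 1).2)
  have hc := List.all_eq_true.mp (List.all_eq_true.mp chk2 (code u)
    (List.mem_range.mpr (code_lt u))) (code v) (List.mem_range.mpr (code_lt v))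
  unfold c2 at hc
  simp only [Bool.or_eq_true, beq_iff_eq, Bool.not_eq_true', List.any_eq_true,
    List.mem_range, Bool.and_eq_true, List.elem_iff] at hc
  have hc' : ∃ j < 40, bU.getD j 0 ∈ combs (code u) (code v) ∧
      bV.getD j 0 ∈ combs (code u) (code v) := by
    rcases hc with ((((h | h) | h) | h) | h) | h
    · exact absurd h (code_ne_zero hu0)
    · rw [hsy] at h
      simp at h
    · exact absurd h (code_ne_zero hv0)
    · exact absurd h hvu
    · exact absurd h hvu2
    · exact h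
  obtain ⟨j, hj, hU, hV⟩ := hc'
  refine ⟨j, hj, ?_⟩
  symm
  apply Submodule.eq_of_le_of_finrank_eq
  · have hle : Submodule.span (ZMod 3) {u, v} ≤ W := by
      rw [Submodule.span_le]
      rintro x (rfl | rfl)
      · exact (b 0).2
      · exact (b 1).2
    refine le_trans ?_ hle
    unfold stdLine
    rw [Submodule.span_le]
    rintro x (rfl | rfl)
    · show _ ∈ Submodule.span (ZMod 3) {u, v}
      rw [mem_span_iff, code_dec (chk5 j hj).1]
      exact hU
    · show _ ∈ Submodule.span (ZMod 3) {u, v}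
      rw [mem_span_iff, code_dec (chk5 j hj).2]
      exact hV
  · rw [finrank_stdLine hj, hW]

/-- index of a point -/
noncomputable def pIdx (p : W3Point) : ℕ := ptTab.getD (code (Projectivization.rep p)) 0

lemma pIdx_lt (p : W3Point) : pIdx p < 40 := by
  have h := List.all_eq_true.mp chk1b (code (Projectivization.rep p))
    (List.mem_range.mpr (code_lt _))
  simp only [Bool.or_eq_true, beq_iff_eq, Nat.blt_eq] at h
  rcases h with h | h
  · exact absurd h (code_ne_zero (Projectivization.rep_nonzero p))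
  · exact h

lemma pIdx_inj {p q : W3Point} (h : pIdx p = pIdx q) : p = q := by
  have hc := List.all_eq_true.mp (List.all_eq_true.mp chk1 (code (Projectivization.rep p))
    (List.mem_range.mpr (code_lt _))) (code (Projectivization.rep q))
    (List.mem_range.mpr (code_lt _))
  unfold c1 at hc
  simp only [Bool.or_eq_true, beq_iff_eq, Bool.not_eq_true'] at hc
  have hp : Projectivization.mk (ZMod 3) (Projectivization.rep p)
    (Projectivization.rep_nonzero p) = p := Projectivization.mk_rep p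
  have hq : Projectivization.mk (ZMod 3) (Projectivization.rep q)
    (Projectivization.rep_nonzero q) = q := Projectivization.mk_rep q
  rw [← hp, ← hq]
  refine (Projectivization.mk_eq_mk_iff' (ZMod 3) _ _ (Projectivization.rep_nonzero p)
    (Projectivization.rep_nonzero q)).mpr ?_
  rcases hc with (((h1 | h1) | h1) | h1) | h1
  · exact absurd h1 (code_ne_zero (Projectivization.rep_nonzero p))
  · exact absurd h1 (code_ne_zero (Projectivization.rep_nonzero q))
  · unfold pIdx at h
    rw [h] at h1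
    simp at h1
  · exact ⟨1, by rw [code_inj h1, one_smul]⟩
  · refine ⟨2, ?_⟩
    have h3 := code_lc 2 0 (Projectivization.rep q) 0
    rw [code_zero] at h3
    have h4 : code (Projectivization.rep p) =
        code ((2 : ZMod 3) • (Projectivization.rep q) + (0 : ZMod 3) • (0 : Fin 4 → ZMod 3)) := by
      rw [h3]
      exact h1
    rw [code_inj h4]
    simp

/-- index of a line -/
noncomputable def lIdx (W : W3Line) : ℕ := (exists_std W).choose

lemma lIdx_lt (W : W3Line) : lIdx W < 40 := (exists_std W).choose_spec.1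

lemma lIdx_spec (W : W3Line) : W.1 = stdLine (lIdx W) := (exists_std W).choose_spec.2

lemma lIdx_inj {W W' : W3Line} (h : lIdx W = lIdx W') : W = W' := by
  apply Subtype.ext
  rw [lIdx_spec W, lIdx_spec W', h]

lemma inc_iff (p : W3Point) (W : W3Line) :
    W3Inc p W ↔ (lnTab.getD (lIdx W) []).elem (pIdx p) = true := by
  unfold W3Inc
  rw [lIdx_spec W]
  have hp : Projectivization.submodule p = Submodule.span (ZMod 3) {Projectivization.rep p} :=
    Projectivization.submodule_eq p
  rw [hp, Submodule.span_singleton_le_iff_mem]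
  unfold stdLine
  rw [mem_span_iff, code_dec (chk5 _ (lIdx_lt W)).1, code_dec (chk5 _ (lIdx_lt W)).2]
  have hc := List.all_eq_true.mp (List.all_eq_true.mp chk4 (lIdx W)
    (List.mem_range.mpr (lIdx_lt W))) (code (Projectivization.rep p))
    (List.mem_range.mpr (code_lt _))
  unfold c4 at hc
  simp only [Bool.or_eq_true, beq_iff_eq] at hc
  rcases hc with h | h
  · exact absurd h (code_ne_zero (Projectivization.rep_nonzero p))
  · unfold pIdx
    rw [← h, List.elem_iff]

end Pool.Agent.Helper84.Topo
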