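import Pool.Agent.Helper84.W3Enum

/-!
Geometric realizations of point-line configurations in the real projective plane.
-/

set_option autoImplicit false

open scoped LinearAlgebra.Projectivization

namespace Pool.Agent.Helper84.Topo

/-- The straight line of the real projective plane with equation `a₀x₀ + a₁x₁ + a₂x₂ = 0`:
all points that have homogeneous coordinates `v` with `a₀v₀ + a₁v₁ + a₂v₂ = 0`. -/
def straightLine (a : Fin 3 → ℝ) : Set RP2 :=
  {p | ∃ v : {v : Fin 3 → ℝ // v ≠ 0}, RP2.mk v = p ∧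
    a 0 * v.1 0 + a 1 * v.1 1 + a 2 * v.1 2 = 0}

/-- A straight line of the real projective plane. -/
def IsStraightLine (S : Set RP2) : Prop :=
  ∃ a : Fin 3 → ℝ, a ≠ 0 ∧ S = straightLine a

/-- A geometric realization of an incidence structure with points `A`, lines `B` and
incidence relation `I`: points go injectively to points of the real projective plane, lines go
injectively to straight lines, and a point lies on a straight line exactly when the two are
incident. -/
def GeometricallyRealizable {A B : Type*} (I : A → B → Prop) : Prop :=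
  ∃ (P : A → RP2) (L : B → Set RP2), Function.Injective P ∧ Function.Injective L ∧
    (∀ b, IsStraightLine (L b)) ∧ ∀ a b, P a ∈ L b ↔ I a b

lemma mk_mem_straightLine (a : Fin 3 → ℝ) (v : {v : Fin 3 → ℝ // v ≠ 0}) :
    RP2.mk v ∈ straightLine a ↔ a 0 * v.1 0 + a 1 * v.1 1 + a 2 * v.1 2 = 0 := by
  constructor
  · rintro ⟨w, hw, h⟩
    have h2 := (Projectivization.mk_eq_mk_iff' ℝ w.1 v.1 w.2 v.2).mp hw
    obtain ⟨c, hc⟩ := h2
    have hc0 : c ≠ 0 := by
      rintro rfl
      exact w.2 (by rw [← hc, zero_smul])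
    rw [← hc] at h
    simp only [Pi.smul_apply, smul_eq_mul] at h
    have h3 : c * (a 0 * v.1 0 + a 1 * v.1 1 + a 2 * v.1 2) = 0 := by
      linear_combination h
    exact (mul_eq_zero.mp h3).resolve_left hc0
  · intro h
    exact ⟨v, rfl, h⟩

/-- integer vector as a real vector -/
def rv (t : ℤ × ℤ × ℤ) : Fin 3 → ℝ := ![(t.1 : ℝ), (t.2.1 : ℝ), (t.2.2 : ℝ)]

/-- integer dot product -/
def idot (s t : ℤ × ℤ × ℤ) : ℤ := s.1 * t.1 + s.2.1 * t.2.1 + s.2.2 * t.2.2

lemma rv_ne_zero {t : ℤ × ℤ × ℤ} (h : t ≠ (0, 0, 0)) : rv t ≠ 0 := by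
  intro h0
  apply h
  have e0 := congrFun h0 0
  have e1 := congrFun h0 1
  have e2 := congrFun h0 2
  simp only [rv, Matrix.cons_val_zero, Matrix.cons_val_one, Matrix.cons_val, Pi.zero_apply,
    Int.cast_eq_zero] at e0 e1 e2
  obtain ⟨x, y, z⟩ := t
  simp_all

lemma rdot_eq_zero (s t : ℤ × ℤ × ℤ) :
    rv s 0 * rv t 0 + rv s 1 * rv t 1 + rv s 2 * rv t 2 = 0 ↔ idot s t = 0 := by
  simp only [rv, idot, Matrix.cons_val_zero, Matrix.cons_val_one, Matrix.cons_val]
  norm_cast

/-- Realization from a table of integer coordinates. -/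
theorem geom_of_table {A B : Type*} (I : A → B → Prop) (P : A → ℤ × ℤ × ℤ)
    (L : B → ℤ × ℤ × ℤ) (hP : ∀ a, P a ≠ (0, 0, 0)) (hL : ∀ b, L b ≠ (0, 0, 0))
    (hI : ∀ a b, idot (L b) (P a) = 0 ↔ I a b)
    (hA : ∀ a a', (∀ b, I a b ↔ I a' b) → a = a')
    (hB : ∀ b b', (∀ a, I a b ↔ I a b') → b = b') : GeometricallyRealizable I := by
  have key : ∀ a b, RP2.mk ⟨rv (P a), rv_ne_zero (hP a)⟩ ∈ straightLine (rv (L b)) ↔ I a b := by
    intro a b
    rw [mk_mem_straightLine, rdot_eq_zero]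
    exact hI a b
  refine ⟨fun a => RP2.mk ⟨rv (P a), rv_ne_zero (hP a)⟩, fun b => straightLine (rv (L b)),
    ?_, ?_, ?_, key⟩
  · intro a a' h
    apply hA
    intro b
    rw [← key, ← key]
    have h' : RP2.mk ⟨rv (P a), rv_ne_zero (hP a)⟩ = RP2.mk ⟨rv (P a'), rv_ne_zero (hP a')⟩ := h
    rw [h']
  · intro b b' h
    apply hB
    intro a
    rw [← key, ← key]
    have h' : straightLine (rv (L b)) = straightLine (rv (L b')) := h
    rw [h']
  · intro b
    exact ⟨rv (L b), rv_ne_zero (hL b), rfl⟩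

end Pool.Agent.Helper84.Topo
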