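import Pool.Agent.Helper84.W3Geom

/-!
Integer homogeneous coordinates of 40 points and 40 lines realizing `W(3)`.
-/

set_option autoImplicit false

namespace Pool.Agent.Helper84.Topo

/-- homogeneous coordinates of the forty points -/
def ptCo : List (ℤ × ℤ × ℤ) := [
  (5, -56, -7), (36, -5, -2), (50, -87, -92), (8, 5, 2),
  (24, -29, -38), (3, 10, -5), (27, -19, -43), (8, -5, -6),
  (1, 0, -1), (0, 1, 1), (4, 1, 2), (8, -3, -6),
  (54, -29, -68), (38, 175, 4), (3, 0, -1), (10, -7, -4),
  (66, -19, -4), (92, -45, -134), (3, -5, 1), (2, 3, 0),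
  (18, 25, 4), (1, 1, -1), (27, 10, 15), (1, 3, 1),
  (67, -12, 31), (9, -20, -23), (1, -1, -1), (1, 0, 1),
  (9, -5, -5), (4, -5, 10), (22, 15, 20), (71, -12, -29),
  (22, -15, -10), (3, 2, -1), (3, -1, -7), (42, -19, -28),
  (2, -9, -8), (7, 0, 11), (5, -2, -3), (9, 8, 5)]

/-- homogeneous coordinates of the forty lines -/
def lnCo : List (ℤ × ℤ × ℤ) := [
  (175, 2, 109), (7, -2, 21), (35, 12, -71), (35, -8, 89),
  (1, 10, -7), (3, -2, 59), (5, 54, -45), (11, 82, -7),
  (29, -14, 29), (179, -42, 137), (5, 42, -37), (43, -154, 169),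
  (3, -8, 8), (15, -2, -55), (5, -6, -5), (11, -34, 41),
  (15, -10, -11), (55, -34, -35), (5, 2, 7), (19, 70, -19),
  (47, -26, 41), (3, 2, 1), (1, -2, 3), (20, 26, 5),
  (13, -14, 29), (0, 1, 0), (5, 4, 5), (3, -2, 3),
  (1, -3, 3), (5, 22, -22), (2, -1, 1), (5, 18, -19),
  (11, 2, -23), (1, -2, -1), (15, 14, 13), (33, 130, -21),
  (3, -2, 5), (45, 58, 11), (49, 178, -37), (11, -10, 13)]

/-- incidence table -/
def incB (a b : ℕ) : Bool := (lnTab.getD b []).elem a

/-- coordinates of the point with index `a` -/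
def pv (a : ℕ) : ℤ × ℤ × ℤ := ptCo.getD a (0, 0, 0)

/-- coordinates of the line with index `b` -/
def lv (b : ℕ) : ℤ × ℤ × ℤ := lnCo.getD b (0, 0, 0)

/-- the forty integer points and forty integer lines have exactly the incidences of the table -/
lemma chkInc : ∀ a < 40, ∀ b < 40, (idot (lv b) (pv a) = 0 ↔ incB a b = true) := by
  decide +kernel

lemma chkP0 : ∀ a < 40, pv a ≠ (0, 0, 0) := by decide +kernel

lemma chkL0 : ∀ b < 40, lv b ≠ (0, 0, 0) := by decide +kernel

lemma chkSepP : ∀ a < 40, ∀ a' < 40, a = a' ∨ ∃ b < 40, incB a b = true ∧ incB a' b = false := by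
  decide +kernel

lemma chkSepL : ∀ b < 40, ∀ b' < 40, b = b' ∨ ∃ a < 40, incB a b = true ∧ incB a b' = false := by
  decide +kernel

lemma idot_comm (s t : ℤ × ℤ × ℤ) : idot s t = idot t s := by
  unfold idot
  ring

lemma GeometricallyRealizable.comap {A B A' B' : Type*} {I : A → B → Prop}
    (h : GeometricallyRealizable I) (f : A' → A) (g : B' → B) (hf : Function.Injective f)
    (hg : Function.Injective g) : GeometricallyRealizable (fun a b => I (f a) (g b)) := by
  obtain ⟨P, L, hP, hL, hS, hI⟩ := h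
  exact ⟨P ∘ f, L ∘ g, hP.comp hf, hL.comp hg, fun b => hS (g b), fun a b => hI (f a) (g b)⟩

theorem geomD : GeometricallyRealizable (fun (a b : Fin 40) => incB a b = true) := by
  refine geom_of_table _ (fun a => pv a) (fun b => lv b) (fun a => chkP0 a a.2)
    (fun b => chkL0 b b.2) (fun a b => chkInc a a.2 b b.2) ?_ ?_
  · intro a a' h
    rcases chkSepP a a.2 a' a'.2 with h1 | ⟨b, hb, h1, h2⟩
    · exact Fin.ext h1
    · have := (h ⟨b, hb⟩).mp h1
      exact absurd this (by simpa using h2)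
  · intro b b' h
    rcases chkSepL b b.2 b' b'.2 with h1 | ⟨a, ha, h1, h2⟩
    · exact Fin.ext h1
    · have := (h ⟨a, ha⟩).mp h1
      exact absurd this (by simpa using h2)

theorem geomP : GeometricallyRealizable (fun (a b : Fin 40) => incB b a = true) := by
  refine geom_of_table _ (fun a => lv a) (fun b => pv b) (fun a => chkL0 a a.2)
    (fun b => chkP0 b b.2) (fun a b => ?_) ?_ ?_
  · rw [idot_comm]
    exact chkInc b b.2 a a.2
  · intro a a' h
    rcases chkSepL a a.2 a' a'.2 with h1 | ⟨b, hb, h1, h2⟩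
    · exact Fin.ext h1
    · have := (h ⟨b, hb⟩).mp h1
      exact absurd this (by simpa using h2)
  · intro b b' h
    rcases chkSepP b b.2 b' b'.2 with h1 | ⟨a, ha, h1, h2⟩
    · exact Fin.ext h1
    · have := (h ⟨a, ha⟩).mp h1
      exact absurd this (by simpa using h2)

theorem w3_geom : GeometricallyRealizable W3Inc := by
  have h := geomD.comap (fun p : W3Point => (⟨pIdx p, pIdx_lt p⟩ : Fin 40))
    (fun W : W3Line => (⟨lIdx W, lIdx_lt W⟩ : Fin 40))
    (fun p q hpq => pIdx_inj (by simpa using hpq)) (fun W W' hW => lIdx_inj (by simpa using hW))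
  have he : (fun (p : W3Point) (W : W3Line) => incB (pIdx p) (lIdx W) = true) = W3Inc := by
    funext p W
    exact propext (inc_iff p W).symm
  rw [← he]
  exact h

theorem w3_dual_geom :
    GeometricallyRealizable (fun (W : W3Line) (p : W3Point) => W3Inc p W) := by
  have h := geomP.comap (fun W : W3Line => (⟨lIdx W, lIdx_lt W⟩ : Fin 40))
    (fun p : W3Point => (⟨pIdx p, pIdx_lt p⟩ : Fin 40))
    (fun W W' hW => lIdx_inj (by simpa using hW)) (fun p q hpq => pIdx_inj (by simpa using hpq))
  have he : (fun (W : W3Line) (p : W3Point) => incB (pIdx p) (lIdx W) = true) =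
      (fun (W : W3Line) (p : W3Point) => W3Inc p W) := by
    funext W p
    exact propext (inc_iff p W).symm
  rw [← he]
  exact h

end Pool.Agent.Helper84.Topo
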